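import Mathlib

set_option autoImplicit false

namespace Pool.Agent.Work.MP_a883af_co

open Finset

open scoped Classical in
/-- The cliques of size `a` inside `S`. -/
noncomputable def cliques {W : Type*} (G : SimpleGraph W) (a : ℕ) (S : Finset W) :
    Finset (Finset W) :=
  (S.powersetCard a).filter (fun K => G.IsClique (K : Set W))

theorem mem_cliques {W : Type*} {G : SimpleGraph W} {a : ℕ} {S K : Finset W} :
    K ∈ cliques G a S ↔ K ⊆ S ∧ K.card = a ∧ G.IsClique (K : Set W) := by
  simp [cliques, mem_powersetCard, and_assoc]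

theorem cliques_mono {W : Type*} (G : SimpleGraph W) (a : ℕ) {S S' : Finset W} (h : S ⊆ S') :
    (cliques G a S).card ≤ (cliques G a S').card := by
  apply card_le_card
  intro K hK
  rw [mem_cliques] at hK ⊢
  exact ⟨hK.1.trans h, hK.2⟩

theorem cliques_zero {W : Type*} (G : SimpleGraph W) (S : Finset W) :
    (cliques G 0 S).card = 1 := by
  rw [card_eq_one]
  refine ⟨∅, ?_⟩
  ext K
  rw [mem_cliques, mem_singleton]
  constructor
  · rintro ⟨-, h, -⟩
    exact card_eq_zero.1 h
  · rintro rfl
    simp

open scoped Classical in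
/-- The neighbours of `v` in `S`. -/
noncomputable def nb {W : Type*} (G : SimpleGraph W) (v : W) (S : Finset W) : Finset W :=
  S.filter (fun u => G.Adj v u)

theorem recur {W : Type*} (G : SimpleGraph W) (a : ℕ) (S : Finset W) :
    ∑ v ∈ S, (cliques G a (nb G v S)).card ≤ (a + 1) * (cliques G (a + 1) S).card := by
  classical
  have h1 : ∑ v ∈ S, (cliques G a (nb G v S)).card
      = (S.sigma (fun v => cliques G a (nb G v S))).card := by
    rw [card_sigma]
  have h2 : (a + 1) * (cliques G (a + 1) S).card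
      = ((cliques G (a + 1) S).sigma (fun K => K)).card := by
    rw [card_sigma, mul_comm, ← smul_eq_mul, ← sum_const]
    apply sum_congr rfl
    intro K hK
    exact ((mem_cliques.1 hK).2.1).symm
  rw [h1, h2]
  apply card_le_card_of_injOn (fun x => ⟨insert x.1 x.2, x.1⟩)
  · rintro ⟨v, K⟩ hx
    have hx' : v ∈ S ∧ K ∈ cliques G a (nb G v S) := by simpa using hx
    obtain ⟨hv, hK⟩ := hx'
    obtain ⟨hK1, hK2, hK3⟩ := mem_cliques.1 hK
    have hvK : v ∉ K := by
      intro h
      exact G.loopless.irrefl v (mem_filter.1 (hK1 h)).2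
    have : insert v K ∈ cliques G (a + 1) S ∧ v ∈ insert v K := by
      refine ⟨mem_cliques.2 ⟨?_, ?_, ?_⟩, mem_insert_self _ _⟩
      · intro z hz
        rcases mem_insert.1 hz with rfl | hz
        · exact hv
        · exact (mem_filter.1 (hK1 hz)).1
      · rw [card_insert_of_notMem hvK, hK2]
      · rw [coe_insert, SimpleGraph.isClique_insert]
        exact ⟨hK3, fun u hu _ => (mem_filter.1 (hK1 hu)).2⟩
    simpa using this
  · rintro ⟨v, K⟩ hx ⟨v', K'⟩ hx' heq
    have hx1 : v ∈ S ∧ K ∈ cliques G a (nb G v S) := by simpa using hx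
    have hx2 : v' ∈ S ∧ K' ∈ cliques G a (nb G v' S) := by simpa using hx'
    have e1 : insert v K = insert v' K' := congrArg Sigma.fst heq
    have e2 : v = v' := by
      have := (Sigma.mk.inj_iff.1 heq).2
      exact eq_of_heq this
    subst e2
    have hvK : v ∉ K := by
      intro h
      exact G.loopless.irrefl v (mem_filter.1 ((mem_cliques.1 hx1.2).1 h)).2
    have hvK' : v ∉ K' := by
      intro h
      exact G.loopless.irrefl v (mem_filter.1 ((mem_cliques.1 hx2.2).1 h)).2
    have e3 : K = K' := by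
      rw [← erase_insert hvK, e1, erase_insert hvK']
    rw [e3]

/-- The exponent in the supersaturated Ramsey theorem. -/
def ex (a b : ℕ) : ℕ := a * b + a * (a + 1) / 2 + a

theorem ex_succ_left (a b : ℕ) : ex a b + (a + 2) ≤ ex (a + 1) b := by
  unfold ex
  have h : (a + 1) * (a + 1 + 1) / 2 = a * (a + 1) / 2 + (a + 1) := by
    have : (a + 1) * (a + 1 + 1) = a * (a + 1) + (a + 1) * 2 := by ring
    rw [this, Nat.add_mul_div_right _ _ (by norm_num)]
  rw [h, add_mul]
  omega

theorem ex_succ_right (a b : ℕ) : ex b (a + 1) = ex b a + b := by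
  unfold ex
  rw [mul_add]
  omega

/-- The dichotomy. -/
def Dich {W : Type*} (G : SimpleGraph W) (a b : ℕ) (S : Finset W) : Prop :=
  (S.card + 1) ^ a ≤ (cliques G a S).card * (a.factorial * 2 ^ ex a b) ∨
  (S.card + 1) ^ b ≤ (cliques Gᶜ b S).card * (b.factorial * 2 ^ ex b a)

theorem step {W : Type*} (G : SimpleGraph W) (a b : ℕ)
    (ih : ∀ S' : Finset W, 2 ^ (a + b) ≤ S'.card + 1 → Dich G a b S')
    (S V1 : Finset W) (hS : 2 ^ (a + 1 + b) ≤ S.card + 1) (hV1 : V1 ⊆ S)
    (hV : ∀ v ∈ V1, S.card + 1 ≤ 2 * ((nb G v S).card + 1)) (hc : S.card + 1 ≤ 4 * V1.card) :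
    Dich G (a + 1) b S := by
  have hN : ∀ v ∈ V1, 2 ^ (a + b) ≤ (nb G v S).card + 1 := by
    intro v hv
    have h1 := hV v hv
    have h2 : 2 ^ (a + 1 + b) = 2 * 2 ^ (a + b) := by
      rw [show a + 1 + b = (a + b) + 1 by ring, pow_succ]; ring
    omega
  have hpow : ∀ v ∈ V1, ∀ c : ℕ, (S.card + 1) ^ c ≤ 2 ^ c * ((nb G v S).card + 1) ^ c := by
    intro v hv c
    rw [← mul_pow]
    exact Nat.pow_le_pow_left (hV v hv) c
  by_cases hall : ∀ v ∈ V1, ((nb G v S).card + 1) ^ a
      ≤ (cliques G a (nb G v S)).card * (a.factorial * 2 ^ ex a b)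
  · left
    have h1 : V1.card * (S.card + 1) ^ a
        ≤ 2 ^ a * (a.factorial * 2 ^ ex a b) * ((a + 1) * (cliques G (a + 1) S).card) := by
      calc V1.card * (S.card + 1) ^ a = ∑ _v ∈ V1, (S.card + 1) ^ a := by
            rw [sum_const, smul_eq_mul]
        _ ≤ ∑ v ∈ V1, 2 ^ a * (a.factorial * 2 ^ ex a b) * (cliques G a (nb G v S)).card := by
            apply sum_le_sum
            intro v hv
            calc (S.card + 1) ^ a ≤ 2 ^ a * ((nb G v S).card + 1) ^ a := hpow v hv a
              _ ≤ 2 ^ a * ((cliques G a (nb G v S)).card * (a.factorial * 2 ^ ex a b)) :=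
                  Nat.mul_le_mul_left _ (hall v hv)
              _ = _ := by ring
        _ = 2 ^ a * (a.factorial * 2 ^ ex a b) * ∑ v ∈ V1, (cliques G a (nb G v S)).card := by
            rw [mul_sum]
        _ ≤ 2 ^ a * (a.factorial * 2 ^ ex a b) * ∑ v ∈ S, (cliques G a (nb G v S)).card :=
            Nat.mul_le_mul_left _ (sum_le_sum_of_subset hV1)
        _ ≤ _ := Nat.mul_le_mul_left _ (recur G a S)
    calc (S.card + 1) ^ (a + 1) = (S.card + 1) * (S.card + 1) ^ a := by rw [pow_succ]; ring
      _ ≤ 4 * V1.card * (S.card + 1) ^ a := Nat.mul_le_mul_right _ hc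
      _ = 4 * (V1.card * (S.card + 1) ^ a) := by ring
      _ ≤ 4 * (2 ^ a * (a.factorial * 2 ^ ex a b) * ((a + 1) * (cliques G (a + 1) S).card)) :=
          Nat.mul_le_mul_left _ h1
      _ = (cliques G (a + 1) S).card * ((a + 1).factorial * 2 ^ (ex a b + (a + 2))) := by
          rw [Nat.factorial_succ, pow_add, pow_add 2 a 2]; ring
      _ ≤ _ := by
          apply Nat.mul_le_mul_left
          apply Nat.mul_le_mul_left
          exact Nat.pow_le_pow_right (by norm_num) (ex_succ_left a b)
  · right
    push Not at hall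
    obtain ⟨v, hv, hlt⟩ := hall
    rcases ih (nb G v S) (hN v hv) with h | h
    · omega
    · calc (S.card + 1) ^ b ≤ 2 ^ b * ((nb G v S).card + 1) ^ b := hpow v hv b
        _ ≤ 2 ^ b * ((cliques Gᶜ b (nb G v S)).card * (b.factorial * 2 ^ ex b a)) :=
            Nat.mul_le_mul_left _ h
        _ ≤ 2 ^ b * ((cliques Gᶜ b S).card * (b.factorial * 2 ^ ex b a)) := by
            apply Nat.mul_le_mul_left
            apply Nat.mul_le_mul_right
            classical
            exact cliques_mono Gᶜ b (filter_subset _ _)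
        _ = _ := by rw [ex_succ_right, pow_add]; ring

theorem Dich.swap {W : Type*} {G : SimpleGraph W} {a b : ℕ} {S : Finset W} (h : Dich Gᶜ b a S) :
    Dich G a b S := by
  unfold Dich at *
  rw [compl_compl] at h
  exact h.symm

/-- Supersaturated Ramsey theorem. -/
theorem supersat {W : Type*} (a b : ℕ) : ∀ (G : SimpleGraph W) (S : Finset W),
    2 ^ (a + b) ≤ S.card + 1 → Dich G a b S := by
  classical
  induction hm : a + b using Nat.strong_induction_on generalizing a b with
  | _ m ih =>
    intro G S hS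
    rcases Nat.eq_zero_or_pos a with ha | ha
    · subst ha
      left
      rw [cliques_zero]
      simp [ex]
    rcases Nat.eq_zero_or_pos b with hb | hb
    · subst hb
      right
      rw [cliques_zero]
      simp [ex]
    obtain ⟨a, rfl⟩ : ∃ a', a = a' + 1 := ⟨a - 1, by omega⟩
    obtain ⟨b, rfl⟩ : ∃ b', b = b' + 1 := ⟨b - 1, by omega⟩
    set V1 := S.filter (fun v => S.card + 1 ≤ 2 * ((nb G v S).card + 1)) with hV1
    set V2 := S.filter (fun v => S.card + 1 ≤ 2 * ((nb Gᶜ v S).card + 1)) with hV2
    have hcov : S.card ≤ V1.card + V2.card := by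
      refine le_trans (card_le_card ?_) (card_union_le V1 V2)
      intro v hv
      rw [mem_union, hV1, hV2, mem_filter, mem_filter]
      have hsum : (nb G v S).card + (nb Gᶜ v S).card + 1 = S.card := by
        have h1 : S.card = (S.erase v).card + 1 := (card_erase_add_one hv).symm
        have h2 : ((S.erase v).filter (fun u => G.Adj v u)).card
            + ((S.erase v).filter (fun u => ¬ G.Adj v u)).card = (S.erase v).card :=
          card_filter_add_card_filter_not _
        have h3 : (S.erase v).filter (fun u => G.Adj v u) = nb G v S := by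
          ext u
          simp only [nb, mem_filter, mem_erase]
          constructor
          · rintro ⟨⟨-, h⟩, h'⟩; exact ⟨h, h'⟩
          · rintro ⟨h, h'⟩
            exact ⟨⟨fun e => G.loopless.irrefl v (e ▸ h'), h⟩, h'⟩
        have h4 : (S.erase v).filter (fun u => ¬ G.Adj v u) = nb Gᶜ v S := by
          ext u
          simp only [nb, mem_filter, mem_erase, SimpleGraph.compl_adj]
          constructor
          · rintro ⟨⟨h0, h⟩, h'⟩; exact ⟨h, Ne.symm h0, h'⟩
          · rintro ⟨h, h0, h'⟩
            exact ⟨⟨Ne.symm h0, h⟩, h'⟩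
        rw [h3, h4] at h2
        omega
      rcases Nat.lt_or_ge (2 * ((nb G v S).card + 1)) (S.card + 1) with h | h
      · right
        exact ⟨hv, by omega⟩
      · left
        exact ⟨hv, h⟩
    have h4 : 2 ^ 2 ≤ 2 ^ m := Nat.pow_le_pow_right (by norm_num) (by omega)
    have hS2 : 3 ≤ S.card := by omega
    rcases (by omega : S.card ≤ 2 * V1.card ∨ S.card ≤ 2 * V2.card) with h | h
    · apply step G a (b + 1) (fun S' hS' => ih (a + (b + 1)) (by omega) a (b + 1) rfl G S' hS') S V1
        (by rw [hm]; exact hS) (filter_subset _ _) (fun v hv => (mem_filter.1 hv).2) (by omega)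
    · apply Dich.swap
      apply step Gᶜ b (a + 1) (fun S' hS' => ih (b + (a + 1)) (by omega) b (a + 1) rfl Gᶜ S' hS')
        S V2 (by rw [show b + 1 + (a + 1) = m by omega]; exact hS) (filter_subset _ _)
        (fun v hv => (mem_filter.1 hv).2) (by omega)

end Pool.Agent.Work.MP_a883af_co
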