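import Pool.Agent.Work.MP_a883af_co.Peel
import Pool.Agent.Work.MP_a883af_co.Supersat

set_option autoImplicit false

namespace Pool.Agent.Work.MP_a883af_co

open Finset

/-- `G` contains a copy of `H`. -/
def Copy {n : ℕ} {W : Type} (H : SimpleGraph (Fin n)) (G : SimpleGraph W) : Prop :=
  ∃ f : Fin n → W, Function.Injective f ∧ ∀ u v, H.Adj u v → G.Adj (f u) (f v)

/-- The two-colour Ramsey number of `H`. -/
noncomputable def ramseyNumber {n : ℕ} (H : SimpleGraph (Fin n)) : ℕ :=
  sInf {N : ℕ | ∀ G : SimpleGraph (Fin N), Copy H G ∨ Copy H Gᶜ}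

/-- The degeneracy of `H`. -/
noncomputable def degeneracy {n : ℕ} (H : SimpleGraph (Fin n)) : ℕ :=
  sInf {k : ℕ | ∀ S : Finset (Fin n), S.Nonempty →
    ∃ v ∈ S, ({w : Fin n | w ∈ S ∧ H.Adj v w} : Set (Fin n)).ncard ≤ k}

/-- `σ` is a perfect elimination ordering of `P` (read backwards): for every vertex, its
neighbours that come earlier are pairwise adjacent. -/
def PEO {n : ℕ} (P : SimpleGraph (Fin n)) (σ : Fin n ≃ Fin n) : Prop :=
  ∀ v u w, σ u < σ v → σ w < σ v → P.Adj u v → P.Adj w v → u ≠ w → P.Adj u w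

/-- `H` is chordal, in the form: it has a perfect elimination ordering. -/
def Chordal {n : ℕ} (H : SimpleGraph (Fin n)) : Prop :=
  ∃ σ : Fin n ≃ Fin n, PEO H σ

/-- `H` has treewidth at most `k`, in the form: `H` is a spanning subgraph of a graph with a
perfect elimination ordering in which every vertex has at most `k` earlier neighbours. -/
def TreewidthLE {n : ℕ} (H : SimpleGraph (Fin n)) (k : ℕ) : Prop :=
  ∃ (P : SimpleGraph (Fin n)) (σ : Fin n ≃ Fin n), H ≤ P ∧ PEO P σ ∧
    ∀ v, {u : Fin n | σ u < σ v ∧ P.Adj u v}.ncard ≤ k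

theorem few {n k t : ℕ} (hkt : k ≤ t) {W : Type} [Fintype W] (G : SimpleGraph W)
    (P : SimpleGraph (Fin n))
    (hP1 : ∀ v, {u : Fin n | u < v ∧ P.Adj u v}.ncard ≤ k)
    (hP2 : ∀ v u w, u < v → w < v → P.Adj u v → P.Adj w v → u ≠ w → P.Adj u w)
    (hno : ¬ Copy P G) :
    (cliques G (t + 1) univ).card ≤ n * (cliques G t univ).card := by
  classical
  by_contra hcon
  push Not at hcon
  apply hno
  have hsub : below (cliques G (t + 1) univ) t ⊆ cliques G t univ := by
    intro Q hQ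
    obtain ⟨K, hK, hQK, hQt⟩ := mem_below.1 hQ
    obtain ⟨-, -, hK3⟩ := mem_cliques.1 hK
    exact mem_cliques.2 ⟨subset_univ _, hQt, hK3.subset (by exact_mod_cast hQK)⟩
  have hlt : n * (below (cliques G (t + 1) univ) t).card < (cliques G (t + 1) univ).card :=
    lt_of_le_of_lt (Nat.mul_le_mul_left _ (card_le_card hsub)) hcon
  obtain ⟨ℬ, hℬ, hne, hrich⟩ := peel n t _ hlt
  refine embed hkt G ℬ ?_ hne hrich P hP1 hP2
  intro K hK
  obtain ⟨-, h2, h3⟩ := mem_cliques.1 (hℬ hK)
  exact ⟨h3, h2⟩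

theorem few_iter {n k : ℕ} {W : Type} [Fintype W] (G : SimpleGraph W)
    (P : SimpleGraph (Fin n))
    (hP1 : ∀ v, {u : Fin n | u < v ∧ P.Adj u v}.ncard ≤ k)
    (hP2 : ∀ v u w, u < v → w < v → P.Adj u v → P.Adj w v → u ≠ w → P.Adj u w)
    (hno : ¬ Copy P G) (j : ℕ) :
    (cliques G (k + j) univ).card ≤ n ^ j * (cliques G k univ).card := by
  induction j with
  | zero => simp
  | succ j ih =>
    calc (cliques G (k + j + 1) univ).card ≤ n * (cliques G (k + j) univ).card :=
          few (by omega) G P hP1 hP2 hno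
      _ ≤ n * (n ^ j * (cliques G k univ).card) := Nat.mul_le_mul_left _ ih
      _ = _ := by ring

theorem cliques_le {W : Type} [Fintype W] (G : SimpleGraph W) (k : ℕ) :
    k.factorial * (cliques G k univ).card ≤ (Fintype.card W) ^ k := by
  classical
  have h1 : (cliques G k univ).card ≤ (Fintype.card W).choose k := by
    refine (card_filter_le _ _).trans ?_
    rw [card_powersetCard, card_univ]
  calc k.factorial * (cliques G k univ).card ≤ k.factorial * (Fintype.card W).choose k :=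
        Nat.mul_le_mul_left _ h1
    _ = (Fintype.card W).descFactorial k := (Nat.descFactorial_eq_factorial_mul_choose _ _).symm
    _ ≤ _ := Nat.descFactorial_le_pow _ _

theorem bound {n k : ℕ} (hk : 1 ≤ k) {W : Type} [Fintype W] (G : SimpleGraph W)
    (P : SimpleGraph (Fin n))
    (hP1 : ∀ v, {u : Fin n | u < v ∧ P.Adj u v}.ncard ≤ k)
    (hP2 : ∀ v u w, u < v → w < v → P.Adj u v → P.Adj w v → u ≠ w → P.Adj u w)
    (hno : ¬ Copy P G)
    (hbig : (Fintype.card W + 1) ^ (2 * k)
      ≤ (cliques G (2 * k) univ).card * ((2 * k).factorial * 2 ^ ex (2 * k) (2 * k))) :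
    Fintype.card W + 1 ≤ k * 2 ^ (6 * k + 4) * n := by
  set N := Fintype.card W with hN
  have h1 : (cliques G (2 * k) univ).card ≤ n ^ k * (cliques G k univ).card := by
    have := few_iter G P hP1 hP2 hno k
    rwa [← two_mul] at this
  have h2 : k.factorial * (cliques G k univ).card ≤ (N + 1) ^ k :=
    (cliques_le G k).trans (Nat.pow_le_pow_left (Nat.le_succ _) _)
  have h3 : (2 * k).factorial ≤ k.factorial * (2 * k) ^ k := by
    have e : (2 * k).factorial = k.factorial * (k + 1).ascFactorial k := by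
      rw [Nat.factorial_mul_ascFactorial, two_mul]
    rw [e]
    apply Nat.mul_le_mul_left
    rw [two_mul]
    exact Nat.ascFactorial_le_pow_add k k
  have h4 : ex (2 * k) (2 * k) = (6 * k + 3) * k := by
    unfold ex
    have : 2 * k * (2 * k + 1) / 2 = k * (2 * k + 1) := by
      rw [mul_assoc, Nat.mul_div_cancel_left _ (by norm_num)]
    rw [this]
    ring
  rw [h4] at hbig
  have h5 : (N + 1) ^ k * (N + 1) ^ k ≤ (N + 1) ^ k * (k * 2 ^ (6 * k + 4) * n) ^ k := by
    calc (N + 1) ^ k * (N + 1) ^ k = (N + 1) ^ (2 * k) := by rw [← pow_add, two_mul]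
      _ ≤ (cliques G (2 * k) univ).card * ((2 * k).factorial * 2 ^ ((6 * k + 3) * k)) := hbig
      _ ≤ (n ^ k * (cliques G k univ).card)
          * ((k.factorial * (2 * k) ^ k) * 2 ^ ((6 * k + 3) * k)) := by gcongr
      _ = (k.factorial * (cliques G k univ).card)
          * (n ^ k * (2 * k) ^ k * (2 ^ (6 * k + 3)) ^ k) := by rw [pow_mul]; ring
      _ ≤ (N + 1) ^ k * (n ^ k * (2 * k) ^ k * (2 ^ (6 * k + 3)) ^ k) := by gcongr
      _ = (N + 1) ^ k * (k * 2 ^ (6 * k + 4) * n) ^ k := by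
          rw [← mul_pow, ← mul_pow, pow_succ 2 (6 * k + 3)]
          congr 2
          ring
  have h6 : (N + 1) ^ k ≤ (k * 2 ^ (6 * k + 4) * n) ^ k :=
    Nat.le_of_mul_le_mul_left h5 (by positivity)
  exact (Nat.pow_le_pow_iff_left (by omega)).1 h6

theorem ramsey_le {n k : ℕ} (hk : 1 ≤ k) (H : SimpleGraph (Fin n)) (hH : TreewidthLE H k) :
    ramseyNumber H ≤ k * 2 ^ (6 * k + 4) * n := by
  obtain ⟨P, σ, hHP, hpeo, hw⟩ := hH
  apply Nat.sInf_le
  obtain ⟨N, hN⟩ : ∃ N, N = k * 2 ^ (6 * k + 4) * n := ⟨_, rfl⟩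
  rw [← hN]
  intro G
  rcases Nat.eq_zero_or_pos n with hn | hn
  · subst hn
    left
    exact ⟨fun i => i.elim0, fun i => i.elim0, fun i => i.elim0⟩
  -- relabel
  set P' : SimpleGraph (Fin n) := P.comap σ.symm with hP'
  have hcopy : ∀ {W : Type} (F : SimpleGraph W), Copy P' F → Copy H F := by
    rintro W F ⟨f, hf, hfa⟩
    refine ⟨fun v => f (σ v), fun a b hab => σ.injective (hf hab), fun u v huv => ?_⟩
    apply hfa
    show P.Adj (σ.symm (σ u)) (σ.symm (σ v))
    simpa using hHP huv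
  have hP1 : ∀ v, {u : Fin n | u < v ∧ P'.Adj u v}.ncard ≤ k := by
    intro v
    have e : {u : Fin n | u < v ∧ P'.Adj u v}
        = σ '' {u : Fin n | σ u < σ (σ.symm v) ∧ P.Adj u (σ.symm v)} := by
      ext u
      simp only [Set.mem_setOf_eq, Set.mem_image]
      constructor
      · rintro ⟨h1, h2⟩
        exact ⟨σ.symm u, ⟨by simpa using h1, h2⟩, by simp⟩
      · rintro ⟨x, ⟨h1, h2⟩, rfl⟩
        refine ⟨by simpa using h1, ?_⟩
        show P.Adj (σ.symm (σ x)) (σ.symm v)
        simpa using h2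
    rw [e, Set.ncard_image_of_injective _ σ.injective]
    exact hw _
  have hP2 : ∀ v u w, u < v → w < v → P'.Adj u v → P'.Adj w v → u ≠ w → P'.Adj u w := by
    intro v u w h1 h2 h3 h4 h5
    exact hpeo (σ.symm v) (σ.symm u) (σ.symm w) (by simpa using h1) (by simpa using h2) h3 h4
      (fun h => h5 (σ.symm.injective h))
  by_contra hcon
  push Not at hcon
  obtain ⟨hc1, hc2⟩ := hcon
  have hcard : Fintype.card (Fin N) = N := Fintype.card_fin N
  have hbase : 2 ^ (2 * k + 2 * k) ≤ (univ : Finset (Fin N)).card + 1 := by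
    rw [card_univ, hcard]
    have h1 : 2 ^ (2 * k + 2 * k) ≤ 2 ^ (6 * k + 4) := Nat.pow_le_pow_right (by norm_num) (by omega)
    have h2 : 1 * 2 ^ (6 * k + 4) * 1 ≤ N := by
      rw [hN]; gcongr; omega
    omega
  rcases supersat (2 * k) (2 * k) G univ hbase with h | h
  · have := bound hk G P' hP1 hP2 (fun hc => hc1 (hcopy G hc)) (by simpa [card_univ] using h)
    rw [hcard] at this
    omega
  · have := bound hk Gᶜ P' hP1 hP2 (fun hc => hc2 (hcopy Gᶜ hc)) (by simpa [card_univ] using h)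
    rw [hcard] at this
    omega

theorem ramsey_le_zero {n : ℕ} (H : SimpleGraph (Fin n)) (hH : TreewidthLE H 0) :
    ramseyNumber H ≤ n := by
  obtain ⟨P, σ, hHP, -, hw⟩ := hH
  apply Nat.sInf_le
  intro G
  left
  refine ⟨id, Function.injective_id, fun u v huv => ?_⟩
  exfalso
  have hP := hHP huv
  rcases lt_trichotomy (σ u) (σ v) with h | h | h
  · have := hw v
    rw [Nat.le_zero, Set.ncard_eq_zero (Set.toFinite _)] at this
    have h2 : u ∈ {u : Fin n | σ u < σ v ∧ P.Adj u v} := ⟨h, hP⟩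
    rw [this] at h2
    exact h2
  · exact hP.ne (σ.injective h)
  · have := hw u
    rw [Nat.le_zero, Set.ncard_eq_zero (Set.toFinite _)] at this
    have h2 : v ∈ {w : Fin n | σ w < σ u ∧ P.Adj w u} := ⟨h, hP.symm⟩
    rw [this] at h2
    exact h2

theorem log_le {n k : ℕ} (H : SimpleGraph (Fin n)) (hH : TreewidthLE H k) :
    Real.log (ramseyNumber H : ℝ) ≤ 11 * k + Real.log n := by
  have hn0 : 0 ≤ Real.log (n : ℝ) := Real.log_natCast_nonneg n
  rcases Nat.eq_zero_or_pos (ramseyNumber H) with hr | hr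
  · rw [hr]
    simp only [Nat.cast_zero, Real.log_zero]
    positivity
  rcases Nat.eq_zero_or_pos k with hk | hk
  · subst hk
    have h := ramsey_le_zero H hH
    have : Real.log (ramseyNumber H : ℝ) ≤ Real.log n :=
      Real.log_le_log (by exact_mod_cast hr) (by exact_mod_cast h)
    simpa using this
  · have h := ramsey_le hk H hH
    have hn : 0 < n := by
      rcases Nat.eq_zero_or_pos n with h0 | h0
      · subst h0; simp at h; omega
      · exact h0
    have hnR : (0 : ℝ) < n := by exact_mod_cast hn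
    have hkR : (1 : ℝ) ≤ k := by exact_mod_cast hk
    have h1 : Real.log (ramseyNumber H : ℝ) ≤ Real.log ((k : ℝ) * 2 ^ (6 * k + 4) * n) :=
      Real.log_le_log (by exact_mod_cast hr) (by exact_mod_cast h)
    rw [Real.log_mul (by positivity) (by positivity), Real.log_mul (by positivity) (by positivity),
      Real.log_pow] at h1
    have h2 : Real.log (k : ℝ) ≤ k := (Real.log_le_sub_one_of_pos (by linarith)).trans (by linarith)
    have h3 : Real.log 2 ≤ 1 := by
      have := Real.log_two_lt_d9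
      linarith
    have h4 : ((6 * k + 4 : ℕ) : ℝ) * Real.log 2 ≤ ((6 * k + 4 : ℕ) : ℝ) * 1 :=
      mul_le_mul_of_nonneg_left h3 (by positivity)
    push_cast at h1 h4
    linarith

theorem chordal_width {n : ℕ} (H : SimpleGraph (Fin n)) (hH : Chordal H) :
    TreewidthLE H (degeneracy H) := by
  classical
  obtain ⟨σ, hσ⟩ := hH
  refine ⟨H, σ, le_rfl, hσ, fun v => ?_⟩
  have hmem : degeneracy H ∈ {k : ℕ | ∀ S : Finset (Fin n), S.Nonempty →
      ∃ v ∈ S, ({w : Fin n | w ∈ S ∧ H.Adj v w} : Set (Fin n)).ncard ≤ k} := by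
    apply Nat.sInf_mem
    refine ⟨n, fun S hS => ?_⟩
    obtain ⟨x, hx⟩ := hS
    refine ⟨x, hx, ?_⟩
    calc ({w : Fin n | w ∈ S ∧ H.Adj x w} : Set (Fin n)).ncard
        ≤ (Set.univ : Set (Fin n)).ncard := Set.ncard_le_ncard (Set.subset_univ _)
      _ = n := by rw [Set.ncard_univ]; simp
  set A : Finset (Fin n) := univ.filter (fun u => σ u < σ v ∧ H.Adj u v) with hA
  have hvA : v ∉ A := by
    intro h
    exact absurd (mem_filter.1 h).2.1 (lt_irrefl _)
  obtain ⟨x, hx, hxc⟩ := hmem (insert v A) ⟨v, mem_insert_self _ _⟩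
  have hcl : ∀ w ∈ insert v A, w ≠ x → H.Adj x w := by
    intro w hw hwx
    rcases mem_insert.1 hx with rfl | hxA
    · rcases mem_insert.1 hw with rfl | hwA
      · exact absurd rfl hwx
      · exact (mem_filter.1 hwA).2.2.symm
    · rcases mem_insert.1 hw with rfl | hwA
      · exact (mem_filter.1 hxA).2.2
      · exact hσ v x w (mem_filter.1 hxA).2.1 (mem_filter.1 hwA).2.1 (mem_filter.1 hxA).2.2
          (mem_filter.1 hwA).2.2 (Ne.symm hwx)
  have hset : (((insert v A).erase x : Finset (Fin n)) : Set (Fin n))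
      ⊆ {w : Fin n | w ∈ insert v A ∧ H.Adj x w} := by
    intro w hw
    rw [mem_coe, mem_erase] at hw
    exact ⟨hw.2, hcl w hw.2 hw.1⟩
  have hc1 : ((insert v A).erase x).card ≤ degeneracy H := by
    rw [← Set.ncard_coe_finset]
    exact (Set.ncard_le_ncard hset).trans hxc
  rw [card_erase_of_mem hx, card_insert_of_notMem hvA] at hc1
  have hAe : {u : Fin n | σ u < σ v ∧ H.Adj u v} = (A : Set (Fin n)) := by
    ext u
    simp [hA]
  rw [hAe, Set.ncard_coe_finset]
  simpa using hc1

end Pool.Agent.Work.MP_a883af_co
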