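import Mathlib

set_option autoImplicit false

namespace Pool.Agent.Work.MP_a883af_co

open Finset

variable {W : Type*} [DecidableEq W]

/-- The sets of size `t` contained in a member of the family. -/
def below (𝒜 : Finset (Finset W)) (t : ℕ) : Finset (Finset W) :=
  𝒜.biUnion (fun K => K.powersetCard t)

theorem mem_below {𝒜 : Finset (Finset W)} {t : ℕ} {Q : Finset W} :
    Q ∈ below 𝒜 t ↔ ∃ K ∈ 𝒜, Q ⊆ K ∧ Q.card = t := by
  simp [below, mem_powersetCard]

/-- Peeling: a family with many members over few sets below contains a nonempty subfamily in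
which every set below lies in many members. -/
theorem peel (n t : ℕ) (𝒜 : Finset (Finset W)) (h : n * (below 𝒜 t).card < 𝒜.card) :
    ∃ ℬ ⊆ 𝒜, ℬ.Nonempty ∧ ∀ Q ∈ below ℬ t, n < (ℬ.filter (fun K => Q ⊆ K)).card := by
  induction hm : 𝒜.card using Nat.strong_induction_on generalizing 𝒜 with
  | _ m ih =>
    by_cases hall : ∀ Q ∈ below 𝒜 t, n < (𝒜.filter (fun K => Q ⊆ K)).card
    · refine ⟨𝒜, Subset.rfl, ?_, hall⟩
      rw [← card_pos]; omega
    · push Not at hall
      obtain ⟨Q, hQ, hQc⟩ := hall
      set 𝒞 := 𝒜.filter (fun K => ¬ Q ⊆ K) with h𝒞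
      have hsum : (𝒜.filter (fun K => Q ⊆ K)).card + 𝒞.card = 𝒜.card :=
        card_filter_add_card_filter_not _
      have hpos : 0 < (𝒜.filter (fun K => Q ⊆ K)).card := by
        obtain ⟨K, hK, hQK, -⟩ := mem_below.1 hQ
        exact card_pos.2 ⟨K, mem_filter.2 ⟨hK, hQK⟩⟩
      have hsub : below 𝒞 t ⊆ (below 𝒜 t).erase Q := by
        intro R hR
        obtain ⟨K, hK, hRK, hRt⟩ := mem_below.1 hR
        rw [h𝒞, mem_filter] at hK
        rw [mem_erase]
        refine ⟨?_, mem_below.2 ⟨K, hK.1, hRK, hRt⟩⟩
        rintro rfl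
        exact hK.2 hRK
      have hcard : (below 𝒞 t).card + 1 ≤ (below 𝒜 t).card := by
        have h1 := card_le_card hsub
        rw [card_erase_of_mem hQ] at h1
        have h2 : 0 < (below 𝒜 t).card := card_pos.2 ⟨Q, hQ⟩
        omega
      have hlt : n * (below 𝒞 t).card < 𝒞.card := by
        have h1 : n * ((below 𝒞 t).card + 1) ≤ n * (below 𝒜 t).card :=
          Nat.mul_le_mul_left _ hcard
        rw [mul_add, mul_one] at h1
        omega
      obtain ⟨ℬ, hℬ, hne, hgood⟩ := ih 𝒞.card (by omega) 𝒞 hlt rfl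
      exact ⟨ℬ, hℬ.trans (filter_subset _ _), hne, hgood⟩

/-- Greedy embedding into a rich family of cliques. -/
theorem embed {n k t : ℕ} (hkt : k ≤ t) (G : SimpleGraph W) (ℬ : Finset (Finset W))
    (hcl : ∀ K ∈ ℬ, G.IsNClique (t + 1) K) (hne : ℬ.Nonempty)
    (hrich : ∀ Q ∈ below ℬ t, n < (ℬ.filter (fun K => Q ⊆ K)).card)
    (P : SimpleGraph (Fin n))
    (hP1 : ∀ v, {u : Fin n | u < v ∧ P.Adj u v}.ncard ≤ k)
    (hP2 : ∀ v u w, u < v → w < v → P.Adj u v → P.Adj w v → u ≠ w → P.Adj u w) :
    ∃ f : Fin n → W, Function.Injective f ∧ ∀ u v, P.Adj u v → G.Adj (f u) (f v) := by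
  classical
  obtain ⟨K0, hK0⟩ := hne
  have hK0c := (hcl K0 hK0).card_eq
  obtain ⟨w0, -⟩ : K0.Nonempty := by rw [← card_pos]; omega
  have key : ∀ j : ℕ, j ≤ n → ∃ f : Fin n → W,
      (∀ u v : Fin n, (u : ℕ) < j → (v : ℕ) < j → f u = f v → u = v) ∧
      (∀ u v : Fin n, (u : ℕ) < j → (v : ℕ) < j → P.Adj u v → G.Adj (f u) (f v)) ∧
      (∀ C : Finset (Fin n), (∀ u ∈ C, (u : ℕ) < j) → P.IsClique C →
        ∃ K ∈ ℬ, C.image f ⊆ K) := by
    intro j
    induction j with
    | zero =>
      intro _
      refine ⟨fun _ => w0, by omega, by omega, ?_⟩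
      intro C hC _
      have : C = ∅ := by
        rw [eq_empty_iff_forall_notMem]
        intro u hu
        exact absurd (hC u hu) (by omega)
      exact ⟨K0, hK0, by simp [this]⟩
    | succ j ih =>
      intro hj
      obtain ⟨f, hf1, hf2, hf3⟩ := ih (by omega)
      let v : Fin n := ⟨j, by omega⟩
      let C0 : Finset (Fin n) := univ.filter (fun u => u < v ∧ P.Adj u v)
      have hC0lt : ∀ u ∈ C0, (u : ℕ) < j := fun u hu => (mem_filter.1 hu).2.1
      have hC0 : P.IsClique C0 := by
        intro u hu w hw huw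
        have hu' := (mem_filter.1 hu).2
        have hw' := (mem_filter.1 hw).2
        exact hP2 v u w hu'.1 hw'.1 hu'.2 hw'.2 huw
      have hC0c : C0.card ≤ k := by
        have h1 := hP1 v
        have h2 : {u : Fin n | u < v ∧ P.Adj u v} = (C0 : Set (Fin n)) := by
          ext u; simp [C0]
        rw [h2, Set.ncard_coe_finset] at h1
        exact h1
      obtain ⟨K, hK, hC0K⟩ := hf3 C0 hC0lt hC0
      obtain ⟨Q, hQ1, hQ2, hQ3⟩ := exists_subsuperset_card_eq hC0K
        (le_trans card_image_le (le_trans hC0c hkt))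
        (by rw [(hcl K hK).card_eq]; omega)
      have hrichQ := hrich Q (mem_below.2 ⟨K, hK, hQ2, hQ3⟩)
      -- candidates
      let Y : Finset W := (ℬ.biUnion id).filter (fun y => y ∉ Q ∧ insert y Q ∈ ℬ)
      have hY : n < Y.card := by
        refine lt_of_lt_of_le hrichQ ?_
        have : ℬ.filter (fun K => Q ⊆ K) ⊆ Y.image (fun y => insert y Q) := by
          intro K' hK'
          obtain ⟨hK'1, hK'2⟩ := mem_filter.1 hK'
          have hc : (K' \ Q).card = 1 := by
            rw [card_sdiff_of_subset hK'2, (hcl K' hK'1).card_eq, hQ3]; omega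
          obtain ⟨y, hy⟩ := card_eq_one.1 hc
          have hyK : y ∈ K' \ Q := by rw [hy]; exact mem_singleton_self y
          obtain ⟨hy1, hy2⟩ := mem_sdiff.1 hyK
          have heq : insert y Q = K' := by
            apply eq_of_subset_of_card_le
            · intro z hz
              rcases mem_insert.1 hz with rfl | hz
              · exact hy1
              · exact hK'2 hz
            · rw [card_insert_of_notMem hy2, (hcl K' hK'1).card_eq, hQ3]
          rw [mem_image]
          refine ⟨y, mem_filter.2 ⟨mem_biUnion.2 ⟨K', hK'1, hy1⟩, hy2, ?_⟩, heq⟩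
          rw [heq]; exact hK'1
        exact le_trans (card_le_card this) card_image_le
      have hused : ((univ.filter (fun u : Fin n => (u : ℕ) < j)).image f).card ≤ n :=
        le_trans card_image_le (le_trans (card_filter_le _ _) (by simp))
      obtain ⟨y, hyY, hyu⟩ := exists_mem_notMem_of_card_lt_card (lt_of_le_of_lt hused hY)
      obtain ⟨-, hyQ, hyB⟩ := mem_filter.1 hyY
      have hfresh : ∀ u : Fin n, (u : ℕ) < j → f u ≠ y := by
        intro u hu h
        exact hyu (mem_image.2 ⟨u, mem_filter.2 ⟨mem_univ _, hu⟩, h⟩)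
      have hupd : ∀ u : Fin n, (u : ℕ) < j → Function.update f v y u = f u := by
        intro u hu
        apply Function.update_of_ne
        intro h
        rw [h] at hu
        exact absurd hu (lt_irrefl j)
      have hupv : Function.update f v y v = y := Function.update_self _ _ _
      have hcase : ∀ u : Fin n, (u : ℕ) < j + 1 → (u : ℕ) < j ∨ u = v := by
        intro u hu
        rcases Nat.lt_or_ge (u : ℕ) j with h | h
        · exact Or.inl h
        · exact Or.inr (Fin.ext (by show (u : ℕ) = j; omega))
      have hadj : ∀ u : Fin n, (u : ℕ) < j → P.Adj u v → G.Adj (f u) y := by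
        intro u hu huv
        have h1 : f u ∈ Q := hQ1 (mem_image_of_mem f (mem_filter.2 ⟨mem_univ _, hu, huv⟩))
        exact (hcl _ hyB).isClique (by simp [h1]) (by simp) (hfresh u hu)
      refine ⟨Function.update f v y, ?_, ?_, ?_⟩
      · intro a b ha hb hab
        rcases hcase a ha with ha | rfl <;> rcases hcase b hb with hb | rfl
        · rw [hupd a ha, hupd b hb] at hab
          exact hf1 a b ha hb hab
        · rw [hupd a ha, hupv] at hab
          exact absurd hab (hfresh a ha)
        · rw [hupd b hb, hupv] at hab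
          exact absurd hab.symm (hfresh b hb)
        · rfl
      · intro a b ha hb hab
        rcases hcase a ha with ha | rfl <;> rcases hcase b hb with hb | rfl
        · rw [hupd a ha, hupd b hb]
          exact hf2 a b ha hb hab
        · rw [hupd a ha, hupv]
          exact hadj a ha hab
        · rw [hupd b hb, hupv]
          exact (hadj b hb hab.symm).symm
        · exact absurd hab (P.loopless.irrefl _)
      · intro C hC hCc
        by_cases hv : v ∈ C
        · refine ⟨insert y Q, hyB, ?_⟩
          intro z hz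
          obtain ⟨u, hu, rfl⟩ := mem_image.1 hz
          rcases hcase u (hC u hu) with h | h
          · rw [hupd u h]
            have huv : P.Adj u v := hCc hu hv (by
              intro e; rw [e] at h; exact absurd h (lt_irrefl j))
            exact mem_insert_of_mem (hQ1 (mem_image_of_mem f (mem_filter.2 ⟨mem_univ _, h, huv⟩)))
          · rw [h, hupv]; exact mem_insert_self _ _
        · have hC' : ∀ u ∈ C, (u : ℕ) < j := by
            intro u hu
            rcases hcase u (hC u hu) with h | h
            · exact h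
            · exact absurd (h ▸ hu) hv
          obtain ⟨K', hK', hsub⟩ := hf3 C hC' hCc
          refine ⟨K', hK', ?_⟩
          intro z hz
          obtain ⟨u, hu, rfl⟩ := mem_image.1 hz
          rw [hupd u (hC' u hu)]
          exact hsub (mem_image_of_mem f hu)
  obtain ⟨f, h1, h2, -⟩ := key n le_rfl
  exact ⟨f, fun u v h => h1 u v u.2 v.2 h, fun u v h => h2 u v u.2 v.2 h⟩

end Pool.Agent.Work.MP_a883af_co
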