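import Pool.Agent.Work.MP_a883af_co.ZigJoin

set_option autoImplicit false
set_option linter.unusedSectionVars false

/-!
# Decomposition trees: halving the degeneracy, and multi-level peeling of the degrees
-/

namespace Pool.Agent.Work.MP_a883af_co.Zig

open Finset

variable {V : Type} [DecidableEq V]

theorem cnt_mono {H : SimpleGraph V} {π : V → ℕ} {U U' : Finset V} (h : U ⊆ U') (k : ℕ) (w : V) :
    cnt H π U k w ≤ cnt H π U' k w := by
  classical
  unfold cnt
  exact card_le_card (filter_subset_filter _ h)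

theorem cnt_insert_of_ge {H : SimpleGraph V} {π : V → ℕ} {U : Finset V} {v : V} {k : ℕ}
    (hk : k ≤ π v) (w : V) : cnt H π (insert v U) k w = cnt H π U k w := by
  classical
  unfold cnt
  rw [filter_insert, if_neg]
  intro h; omega

theorem cnt_union {H : SimpleGraph V} {π : V → ℕ} {A B : Finset V} (h : Disjoint A B) (k : ℕ)
    (w : V) : cnt H π (A ∪ B) k w = cnt H π A k w + cnt H π B k w := by
  classical
  unfold cnt
  rw [filter_union, card_union_of_disjoint (disjoint_filter_filter h)]

theorem cnt_filter_lt {H : SimpleGraph V} {π : V → ℕ} {U : Finset V} (k : ℕ) (w : V) :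
    cnt H π (U.filter (fun u => π u < k)) k w = cnt H π U k w := by
  classical
  unfold cnt
  congr 1
  ext u
  simp only [mem_filter]
  tauto

/-- Every graph whose vertices have at most `a` earlier neighbours splits into two in which they
have at most `a / 2`. -/
theorem halve (H : SimpleGraph V) (π : V → ℕ) (hπ : Function.Injective π) (U : Finset V) (a : ℕ)
    (ha : ∀ v ∈ U, cnt H π U (π v) v ≤ a) :
    ∃ A B : Finset V, U = A ∪ B ∧ Disjoint A B ∧ (∀ v ∈ A, cnt H π A (π v) v ≤ a / 2) ∧
      (∀ v ∈ B, cnt H π B (π v) v ≤ a / 2) := by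
  classical
  have key : ∀ k : ℕ, ∃ A B : Finset V, U.filter (fun u => π u < k) = A ∪ B ∧ Disjoint A B ∧
      (∀ v ∈ A, cnt H π A (π v) v ≤ a / 2) ∧ (∀ v ∈ B, cnt H π B (π v) v ≤ a / 2) := by
    intro k
    induction k with
    | zero =>
      refine ⟨∅, ∅, ?_, disjoint_empty_left _, by simp, by simp⟩
      rw [union_empty, filter_eq_empty_iff]
      intro u _; omega
    | succ k ih =>
      obtain ⟨A, B, h1, h2, h3, h4⟩ := ih
      by_cases hex : ∃ v ∈ U, π v = k
      · obtain ⟨v, hv, hvk⟩ := hex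
        have hfil : U.filter (fun u => π u < k + 1) = insert v (A ∪ B) := by
          rw [← h1]
          ext u
          simp only [mem_filter, mem_insert]
          constructor
          · rintro ⟨g1, g2⟩
            rcases Nat.lt_succ_iff_lt_or_eq.1 g2 with h | h
            · exact Or.inr ⟨g1, h⟩
            · left; apply hπ; rw [h, hvk]
          · rintro (rfl | ⟨g1, g2⟩)
            · exact ⟨hv, by omega⟩
            · exact ⟨g1, by omega⟩
        have hlt : ∀ u ∈ A ∪ B, π u < k := by
          intro u hu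
          rw [← h1] at hu
          exact (mem_filter.1 hu).2
        have hvA : v ∉ A := fun h => by have := hlt v (mem_union_left _ h); omega
        have hvB : v ∉ B := fun h => by have := hlt v (mem_union_right _ h); omega
        have hsum : cnt H π A k v + cnt H π B k v ≤ a := by
          rw [← cnt_union h2, ← h1, cnt_filter_lt, ← hvk]
          exact ha v hv
        have hadd : ∀ C : Finset V, C ⊆ A ∪ B → (∀ u ∈ C, cnt H π C (π u) u ≤ a / 2) →
            cnt H π C k v ≤ a / 2 → ∀ u ∈ insert v C, cnt H π (insert v C) (π u) u ≤ a / 2 := by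
          intro C hC hC1 hC2 u hu
          rcases mem_insert.1 hu with rfl | hu'
          · rw [cnt_insert_of_ge le_rfl, hvk]; exact hC2
          · rw [cnt_insert_of_ge (by rw [hvk]; exact (hlt u (hC hu')).le)]; exact hC1 u hu'
        rcases le_or_gt (cnt H π A k v) (a / 2) with hle | hgt
        · refine ⟨insert v A, B, ?_, ?_, hadd A subset_union_left h3 hle, h4⟩
          · rw [hfil, insert_union]
          · rw [disjoint_insert_left]; exact ⟨hvB, h2⟩
        · have hle : cnt H π B k v ≤ a / 2 := by omega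
          refine ⟨A, insert v B, ?_, ?_, h3, hadd B subset_union_right h4 hle⟩
          · rw [hfil, union_insert]
          · rw [disjoint_insert_right]; exact ⟨hvA, h2⟩
      · push Not at hex
        refine ⟨A, B, ?_, h2, h3, h4⟩
        rw [← h1]
        ext u
        simp only [mem_filter]
        constructor
        · rintro ⟨g1, g2⟩
          have := hex u g1
          exact ⟨g1, by omega⟩
        · rintro ⟨g1, g2⟩
          exact ⟨g1, by omega⟩
  obtain ⟨A, B, h1, h2⟩ := key (U.sup π + 1)
  refine ⟨A, B, ?_, h2⟩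
  rw [← h1]
  ext u
  simp only [mem_filter]
  exact ⟨fun h => ⟨h, Nat.lt_succ_of_le (le_sup (f := π) h)⟩, fun h => h.1⟩

theorem card_nb_mono (H : SimpleGraph V) {U U' : Finset V} (h : U ⊆ U') (v : V) :
    (nb H U v).card ≤ (nb H U' v).card := card_le_card (nb_mono H h v)

/-- Decomposition of graphs of bounded degree. -/
theorem dec_halve (H : SimpleGraph V) (π : V → ℕ) (hπ : Function.Injective π) (T : ℕ)
    (hT1 : 1 ≤ T) (r : ℝ) (hr : 0 ≤ r) :
    ∀ (a : ℕ) (U : Finset V), (∀ v ∈ U, cnt H π U (π v) v ≤ a) →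
      (∀ v ∈ U, (nb H U v).card ≤ T) →
      Dec H π T r a.size (a.size * Real.log (16 * T) + 2 * a * r) U := by
  intro a
  induction a using Nat.strong_induction_on with
  | _ a ih =>
    intro U ha hT
    rcases Nat.eq_zero_or_pos a with rfl | hpos
    · rw [Nat.size_zero]
      refine ⟨by simp, ?_⟩
      intro u hu v hv huv
      have hne : π u ≠ π v := fun h => huv.ne (hπ h)
      have hcase : ∀ x ∈ U, ∀ y ∈ U, H.Adj x y → ¬ π x < π y := by
        classical
        intro x hx y hy hxy hlt
        have h0 := ha y hy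
        rw [Nat.le_zero] at h0
        unfold cnt at h0
        rw [card_eq_zero, filter_eq_empty_iff] at h0
        exact h0 hx ⟨hlt, hxy⟩
      rcases lt_or_gt_of_ne hne with h | h
      · exact hcase u hu v hv huv h
      · exact hcase v hv u hu huv.symm h
    · obtain ⟨A, B, h1, h2, h3, h4⟩ := halve H π hπ U a ha
      have hsz : a.size = (a / 2).size + 1 := by
        have := Nat.size_bit (b := a.bodd) (n := a.div2) (by rw [Nat.bit_bodd_div2]; omega)
        rw [Nat.bit_bodd_div2, Nat.div2_val] at this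
        exact this
      rw [hsz]
      have hA : A ⊆ U := by rw [h1]; exact subset_union_left
      have hB : B ⊆ U := by rw [h1]; exact subset_union_right
      have ha2 : (2 : ℝ) * ((a / 2 : ℕ) : ℝ) ≤ a := by
        have : 2 * (a / 2) ≤ a := Nat.mul_div_le a 2
        exact_mod_cast this
      refine ⟨a, T, (a / 2).size * Real.log (16 * T) + 2 * ((a / 2 : ℕ) : ℝ) * r, A, B, hT1, ?_,
        h1, h2, ha, hT, ?_, ?_, ?_⟩
      · push_cast
        have : (2 : ℝ) * ((a / 2 : ℕ) : ℝ) * r ≤ a * r := mul_le_mul_of_nonneg_right ha2 hr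
        linarith
      · intro y hy
        exact (card_nb_mono H hA y).trans (hT y (hB hy))
      · exact ih (a / 2) (by omega) A h3 fun v hv => (card_nb_mono H hA v).trans (hT v (hA hv))
      · exact ih (a / 2) (by omega) B h4 fun v hv => (card_nb_mono H hB v).trans (hT v (hB hv))

/-- `U` has a layering with `L` layers in which every vertex has at most `T` neighbours in higher
layers and at most `D` in its own. -/
def Lay (H : SimpleGraph V) (T D L : ℕ) (U : Finset V) : Prop :=
  ∃ lam : V → ℕ, ∀ v ∈ U, lam v < L ∧ ((nb H U v).filter (fun u => lam v < lam u)).card ≤ T ∧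
    ((nb H U v).filter (fun u => lam v = lam u)).card ≤ D

/-- Binary splitting of the layers. -/
theorem dec_split (H : SimpleGraph V) (π : V → ℕ) (T : ℕ) (r : ℝ) (d D D' : ℕ) (hD : 1 ≤ D)
    (h : ℕ) (c : ℝ) :
    ∀ (k : ℕ) (U : Finset V), (∀ v ∈ U, cnt H π U (π v) v ≤ d) →
      (∀ v ∈ U, (nb H U v).card ≤ D) → Lay H T D' (2 ^ k) U →
      (∀ A ⊆ U, (∀ v ∈ A, (nb H A v).card ≤ D') → Dec H π T r h c A) →
      Dec H π T r (h + k) (c + k * (Real.log (16 * D) + d * r)) U := by
  intro k
  induction k with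
  | zero =>
    intro U hd hDU hL hA
    obtain ⟨lam, hr⟩ := hL
    rw [Nat.add_zero]
    refine (hA U Subset.rfl ?_).mono (by push_cast; linarith)
    intro v hv
    have e : (nb H U v).filter (fun u => lam v = lam u) = nb H U v := by
      rw [filter_eq_self]
      intro u hu
      have h1 := (hr v hv).1
      have h2 := (hr u (nb_subset _ _ _ hu)).1
      rw [pow_zero] at h1 h2
      omega
    rw [← e]
    exact (hr v hv).2.2
  | succ k ih =>
    intro U hd hDU hL hA
    obtain ⟨lam, hr⟩ := hL
    have hd' : ∀ A : Finset V, A ⊆ U → ∀ v ∈ A, cnt H π A (π v) v ≤ d := fun A hA v hv =>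
      (cnt_mono hA _ _).trans (hd v (hA hv))
    have hD' : ∀ A : Finset V, A ⊆ U → ∀ v ∈ A, (nb H A v).card ≤ D := fun A hA v hv =>
      (card_nb_mono H hA v).trans (hDU v (hA hv))
    refine ⟨d, D, c + k * (Real.log (16 * D) + d * r), U.filter (fun v => 2 ^ k ≤ lam v),
      U.filter (fun v => ¬ 2 ^ k ≤ lam v), hD, ?_, ?_, ?_, hd, hDU, ?_, ?_, ?_⟩
    · push_cast; linarith
    · rw [filter_union_filter_not_eq]
    · exact disjoint_filter_filter_not _ _ _
    · intro y hy
      obtain ⟨hy1, hy2⟩ := mem_filter.1 hy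
      refine le_trans (card_le_card ?_) (hr y hy1).2.1
      intro u hu
      rw [mem_nb, mem_filter] at hu
      rw [mem_filter, mem_nb]
      exact ⟨⟨hu.1.1, hu.2⟩, by omega⟩
    · apply ih _ (hd' _ (filter_subset _ _)) (hD' _ (filter_subset _ _))
      · refine ⟨fun v => lam v - 2 ^ k, fun v hv => ?_⟩
        obtain ⟨hv1, hv2⟩ := mem_filter.1 hv
        have h1 := hr v hv1
        rw [pow_succ] at h1
        refine ⟨by dsimp only; omega, le_trans (card_le_card ?_) h1.2.1,
          le_trans (card_le_card ?_) h1.2.2⟩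
        · intro u hu
          rw [mem_filter, mem_nb, mem_filter] at hu
          dsimp only at hu
          rw [mem_filter, mem_nb]
          exact ⟨⟨hu.1.1.1, hu.1.2⟩, by omega⟩
        · intro u hu
          rw [mem_filter, mem_nb, mem_filter] at hu
          dsimp only at hu
          rw [mem_filter, mem_nb]
          exact ⟨⟨hu.1.1.1, hu.1.2⟩, by omega⟩
      · exact fun A hA' => hA A (hA'.trans (filter_subset _ _))
    · apply ih _ (hd' _ (filter_subset _ _)) (hD' _ (filter_subset _ _))
      · refine ⟨lam, fun v hv => ?_⟩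
        obtain ⟨hv1, hv2⟩ := mem_filter.1 hv
        have h1 := hr v hv1
        refine ⟨by omega, le_trans (card_le_card ?_) h1.2.1, le_trans (card_le_card ?_) h1.2.2⟩
        · intro u hu
          rw [mem_filter, mem_nb, mem_filter] at hu
          rw [mem_filter, mem_nb]
          exact ⟨⟨hu.1.1.1, hu.1.2⟩, hu.2⟩
        · intro u hu
          rw [mem_filter, mem_nb, mem_filter] at hu
          rw [mem_filter, mem_nb]
          exact ⟨⟨hu.1.1.1, hu.1.2⟩, hu.2⟩
      · exact fun A hA' => hA A (hA'.trans (filter_subset _ _))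

/-- The number of edges of a degenerate graph. -/
theorem sum_nb_le (H : SimpleGraph V) (π : V → ℕ) (hπ : Function.Injective π) (U : Finset V)
    (d : ℕ) (hd : ∀ v ∈ U, cnt H π U (π v) v ≤ d) :
    ∑ v ∈ U, (nb H U v).card ≤ 2 * d * U.card := by
  classical
  have h1 : ∀ v ∈ U, (nb H U v).card
      = cnt H π U (π v) v + (U.filter (fun u => π v < π u ∧ H.Adj u v)).card := by
    intro v _
    unfold nb cnt
    rw [← card_union_of_disjoint]
    · congr 1
      ext u
      simp only [mem_filter, mem_union]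
      constructor
      · rintro ⟨g1, g2⟩
        rcases lt_trichotomy (π u) (π v) with h | h | h
        · exact Or.inl ⟨g1, h, g2.symm⟩
        · exact absurd (hπ h).symm g2.ne
        · exact Or.inr ⟨g1, h, g2.symm⟩
      · rintro (⟨g1, _, g2⟩ | ⟨g1, _, g2⟩)
        · exact ⟨g1, g2.symm⟩
        · exact ⟨g1, g2.symm⟩
    · rw [disjoint_filter]
      intro u _ g1 g2
      omega
  have h2 : ∑ v ∈ U, (U.filter (fun u => π v < π u ∧ H.Adj u v)).card
      = ∑ u ∈ U, cnt H π U (π u) u := by
    unfold cnt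
    simp only [card_filter]
    rw [sum_comm]
    refine sum_congr rfl fun u _ => sum_congr rfl fun v _ => ?_
    simp only [H.adj_comm]
  rw [sum_congr rfl h1, sum_add_distrib, h2]
  have h3 : ∑ u ∈ U, cnt H π U (π u) u ≤ U.card * d := by
    rw [← smul_eq_mul, ← sum_const]
    exact sum_le_sum hd
  calc _ ≤ U.card * d + U.card * d := Nat.add_le_add h3 h3
    _ = _ := by ring

theorem sum_nb_insert (H : SimpleGraph V) (Z : Finset V) (y : V) (hy : y ∉ Z) :
    ∑ v ∈ insert y Z, (nb H (insert y Z) v).card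
      = ∑ v ∈ Z, (nb H Z v).card + 2 * (nb H Z y).card := by
  classical
  have h1 : ∀ v, (nb H (insert y Z) v).card = (nb H Z v).card + (if H.Adj v y then 1 else 0) := by
    intro v
    unfold nb
    rw [filter_insert]
    split_ifs with h
    · rw [card_insert_of_notMem]
      intro h'
      exact hy (mem_filter.1 h').1
    · rfl
  have h2 : ∑ v ∈ Z, (if H.Adj v y then 1 else 0) = (nb H Z y).card := by
    unfold nb
    rw [card_filter]
    exact sum_congr rfl fun v _ => by simp only [H.adj_comm]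
  rw [sum_insert hy, sum_congr rfl (fun v _ => h1 v), sum_add_distrib, h2, h1]
  simp only [SimpleGraph.irrefl, if_false]
  ring

/-- Every set `X` is contained in a set `Z` of at most twice its size such that outside vertices
have at most `T` neighbours in `Z`. -/
theorem exists_closure (H : SimpleGraph V) (π : V → ℕ) (hπ : Function.Injective π) (d T : ℕ)
    (hT : 2 * d ≤ T) (hT1 : 1 ≤ T) (W : Finset V) (hd : ∀ v ∈ W, cnt H π W (π v) v ≤ d)
    (X : Finset V) (hX : X ⊆ W) :
    ∃ Z : Finset V, X ⊆ Z ∧ Z ⊆ W ∧ Z.card ≤ 2 * X.card ∧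
      ∀ y ∈ W, y ∉ Z → (nb H Z y).card ≤ T := by
  classical
  let F : Finset (Finset V) := W.powerset.filter (fun Z => X ⊆ Z ∧
    2 * T * Z.card ≤ ∑ v ∈ Z, (nb H Z v).card + 2 * T * X.card)
  have hF : F.Nonempty := ⟨X, mem_filter.2 ⟨mem_powerset.2 hX, Subset.rfl, by omega⟩⟩
  obtain ⟨Z, hZF, hZmax⟩ := exists_max_image F card hF
  obtain ⟨hZW, hXZ, hZe⟩ := mem_filter.1 hZF
  rw [mem_powerset] at hZW
  refine ⟨Z, hXZ, hZW, ?_, ?_⟩
  · have h1 := sum_nb_le H π hπ Z d (fun v hv => (cnt_mono hZW _ _).trans (hd v (hZW hv)))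
    have h2 : 2 * T * Z.card ≤ T * Z.card + 2 * T * X.card := by
      have : 2 * d * Z.card ≤ T * Z.card := Nat.mul_le_mul_right _ hT
      omega
    have h3 : T * Z.card ≤ T * (2 * X.card) := by
      have e1 : 2 * T * Z.card = T * Z.card + T * Z.card := by ring
      have e2 : T * (2 * X.card) = 2 * T * X.card := by ring
      omega
    exact Nat.le_of_mul_le_mul_left h3 hT1
  · intro y hyW hyZ
    by_contra hcon
    push Not at hcon
    have hmem : insert y Z ∈ F := by
      refine mem_filter.2 ⟨mem_powerset.2 (insert_subset hyW hZW), hXZ.trans (subset_insert _ _),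
        ?_⟩
      rw [sum_nb_insert H Z y hyZ, card_insert_of_notMem hyZ, Nat.mul_add, Nat.mul_one]
      omega
    have := hZmax _ hmem
    rw [card_insert_of_notMem hyZ] at this
    omega

/-- Existence of a layering: peeling off the vertices of degree at most `D`. -/
theorem exists_lay (H : SimpleGraph V) (π : V → ℕ) (hπ : Function.Injective π) (d T D : ℕ)
    (hT : 2 * d ≤ T) (hT1 : 1 ≤ T) (hD : (4 * d) ^ 2 ≤ D) (hD1 : 1 ≤ D) :
    ∀ (k : ℕ) (W : Finset V), (∀ v ∈ W, cnt H π W (π v) v ≤ d) → W.card ^ 2 < D ^ k →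
      Lay H T D k W := by
  classical
  intro k
  induction k with
  | zero =>
    intro W _ hW
    rw [pow_zero, Nat.lt_one_iff, pow_eq_zero_iff (by norm_num), card_eq_zero] at hW
    subst hW
    exact ⟨fun _ => 0, by simp⟩
  | succ k ih =>
    intro W hd hW
    let X := W.filter (fun v => D < (nb H W v).card)
    have hXW : X ⊆ W := filter_subset _ _
    have e1 : D * X.card ≤ 2 * d * W.card := by
      refine le_trans ?_ (sum_nb_le H π hπ W d hd)
      calc D * X.card = ∑ _v ∈ X, D := by rw [sum_const, smul_eq_mul, mul_comm]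
        _ ≤ ∑ v ∈ X, (nb H W v).card := sum_le_sum fun v hv => (mem_filter.1 hv).2.le
        _ ≤ ∑ v ∈ W, (nb H W v).card := sum_le_sum_of_subset hXW
    obtain ⟨Z, hXZ, hZW, hZc, hZ⟩ := exists_closure H π hπ d T hT hT1 W hd X hXW
    have e2 : D * Z.card ≤ 4 * d * W.card := by
      calc D * Z.card ≤ D * (2 * X.card) := Nat.mul_le_mul_left _ hZc
        _ = 2 * (D * X.card) := by ring
        _ ≤ 2 * (2 * d * W.card) := Nat.mul_le_mul_left _ e1
        _ = _ := by ring
    have e3 : D * Z.card ^ 2 ≤ W.card ^ 2 := by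
      have h1 : (D * Z.card) ^ 2 ≤ (4 * d * W.card) ^ 2 := Nat.pow_le_pow_left e2 2
      have h2 : D * (D * Z.card ^ 2) ≤ D * W.card ^ 2 := by
        calc D * (D * Z.card ^ 2) = (D * Z.card) ^ 2 := by ring
          _ ≤ (4 * d * W.card) ^ 2 := h1
          _ = (4 * d) ^ 2 * W.card ^ 2 := by ring
          _ ≤ D * W.card ^ 2 := Nat.mul_le_mul_right _ hD
      exact Nat.le_of_mul_le_mul_left h2 hD1
    have e4 : Z.card ^ 2 < D ^ k := by
      have h1 : D * Z.card ^ 2 < D * D ^ k := by
        calc D * Z.card ^ 2 ≤ W.card ^ 2 := e3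
          _ < D ^ (k + 1) := hW
          _ = D * D ^ k := by ring
      exact Nat.lt_of_mul_lt_mul_left h1
    obtain ⟨lam, hlam⟩ := ih Z (fun v hv => (cnt_mono hZW _ _).trans (hd v (hZW hv))) e4
    refine ⟨fun v => if v ∈ Z then lam v + 1 else 0, fun v hv => ?_⟩
    by_cases hv1 : v ∈ Z
    · simp only [if_pos hv1]
      refine ⟨by have := (hlam v hv1).1; omega, le_trans (card_le_card ?_) (hlam v hv1).2.1,
        le_trans (card_le_card ?_) (hlam v hv1).2.2⟩
      · intro u hu
        rw [mem_filter, mem_nb] at hu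
        rw [mem_filter, mem_nb]
        by_cases hu1 : u ∈ Z
        · rw [if_pos hu1] at hu
          exact ⟨⟨hu1, hu.1.2⟩, by omega⟩
        · rw [if_neg hu1] at hu
          exact absurd hu.2 (by omega)
      · intro u hu
        rw [mem_filter, mem_nb] at hu
        rw [mem_filter, mem_nb]
        by_cases hu1 : u ∈ Z
        · rw [if_pos hu1] at hu
          exact ⟨⟨hu1, hu.1.2⟩, by omega⟩
        · rw [if_neg hu1] at hu
          exact absurd hu.2 (by omega)
    · simp only [if_neg hv1]
      refine ⟨by omega, le_trans (card_le_card ?_) (hZ v hv hv1),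
        le_trans (card_le_card (filter_subset _ _)) ?_⟩
      · intro u hu
        rw [mem_filter, mem_nb] at hu
        rw [mem_nb]
        by_cases hu1 : u ∈ Z
        · exact ⟨hu1, hu.1.2⟩
        · rw [if_neg hu1] at hu
          exact absurd hu.2 (by omega)
      · by_contra hcon
        exact hv1 (hXZ (mem_filter.2 ⟨hv, by omega⟩))

/-- One level: from maximum degree `D` to maximum degree `D'`. -/
theorem dec_level (H : SimpleGraph V) (π : V → ℕ) (hπ : Function.Injective π) (d T : ℕ) (r : ℝ)
    (hT : 2 * d ≤ T) (hT1 : 1 ≤ T) (D D' : ℕ) (hD : 1 ≤ D) (hD' : (4 * d) ^ 2 ≤ D')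
    (hD'1 : 1 ≤ D') (N k : ℕ) (hN : N ^ 2 ≤ D' ^ (2 ^ k)) (h : ℕ) (c : ℝ)
    (hrec : ∀ U : Finset V, (∀ v ∈ U, cnt H π U (π v) v ≤ d) → U.card < N →
      (∀ v ∈ U, (nb H U v).card ≤ D') → Dec H π T r h c U) (U : Finset V)
    (hd : ∀ v ∈ U, cnt H π U (π v) v ≤ d) (hU : U.card < N) (hDU : ∀ v ∈ U, (nb H U v).card ≤ D) :
    Dec H π T r (h + k) (c + k * (Real.log (16 * D) + d * r)) U := by
  apply dec_split H π T r d D D' hD h c k U hd hDU
  · apply exists_lay H π hπ d T D' hT hT1 hD' hD'1 (2 ^ k) U hd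
    refine lt_of_lt_of_le ?_ hN
    exact Nat.pow_lt_pow_left hU (by norm_num)
  · intro A hA hDA
    exact hrec A (fun v hv => (cnt_mono hA _ _).trans (hd v (hA hv)))
      (lt_of_le_of_lt (card_le_card hA) hU) hDA

/-- A degenerate graph has an ordering in which every vertex has few earlier neighbours. -/
theorem exists_order (H : SimpleGraph V) (d : ℕ)
    (hd : ∀ S : Finset V, S.Nonempty → ∃ v ∈ S, (nb H S v).card ≤ d) :
    ∀ (s : ℕ) (U : Finset V), U.card = s → ∃ π : V → ℕ, Set.InjOn π U ∧
      (∀ v ∈ U, π v < s) ∧ ∀ v ∈ U, cnt H π U (π v) v ≤ d := by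
  classical
  intro s
  induction s with
  | zero =>
    intro U hU
    rw [card_eq_zero] at hU
    subst hU
    exact ⟨fun _ => 0, by simp, by simp, by simp⟩
  | succ s ih =>
    intro U hU
    obtain ⟨v, hv, hvd⟩ := hd U (card_pos.1 (by omega))
    have hc : (U.erase v).card = s := by rw [card_erase_of_mem hv, hU]; rfl
    obtain ⟨π, h1, h2, h3⟩ := ih (U.erase v) hc
    have hne : ∀ u, u ≠ v → Function.update π v s u = π u := fun u hu =>
      Function.update_of_ne hu _ _
    have hself : Function.update π v s v = s := Function.update_self _ _ _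
    refine ⟨Function.update π v s, ?_, ?_, ?_⟩
    · intro u hu w hw he
      by_cases huv : u = v
      · by_cases hwv : w = v
        · rw [huv, hwv]
        · exfalso
          rw [huv, hself, hne w hwv] at he
          have := h2 w (mem_erase.2 ⟨hwv, hw⟩)
          omega
      · by_cases hwv : w = v
        · exfalso
          rw [hwv, hself, hne u huv] at he
          have := h2 u (mem_erase.2 ⟨huv, hu⟩)
          omega
        · rw [hne u huv, hne w hwv] at he
          exact h1 (mem_erase.2 ⟨huv, hu⟩) (mem_erase.2 ⟨hwv, hw⟩) he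
    · intro u hu
      by_cases huv : u = v
      · rw [huv, hself]; omega
      · rw [hne u huv]
        have := h2 u (mem_erase.2 ⟨huv, hu⟩)
        omega
    · intro u hu
      by_cases huv : u = v
      · subst huv
        refine le_trans ?_ hvd
        unfold cnt nb
        apply card_le_card
        intro x hx
        simp only [mem_filter] at hx ⊢
        exact ⟨hx.1, hx.2.2.symm⟩
      · refine le_trans ?_ (h3 u (mem_erase.2 ⟨huv, hu⟩))
        rw [hne u huv]
        unfold cnt
        apply card_le_card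
        intro x hx
        simp only [mem_filter, mem_erase] at hx ⊢
        have hlt := h2 u (mem_erase.2 ⟨huv, hu⟩)
        by_cases hxv : x = v
        · exfalso
          rw [hxv, hself] at hx
          omega
        · rw [hne x hxv] at hx
          exact ⟨⟨hxv, hx.1⟩, hx.2⟩

theorem pow_ineq : ∀ s : ℕ, 1 ≤ s → s * (2 * s + 1) ≤ 3 * 2 ^ s := by
  intro s hs
  induction s with
  | zero => omega
  | succ s ih =>
    rcases Nat.lt_or_ge s 3 with h | h
    · interval_cases s <;> norm_num
    · have h1 := ih (by omega)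
      have h2 : (s + 1) * (2 * (s + 1) + 1) ≤ 2 * (s * (2 * s + 1)) := by nlinarith
      calc (s + 1) * (2 * (s + 1) + 1) ≤ 2 * (s * (2 * s + 1)) := h2
        _ ≤ 2 * (3 * 2 ^ s) := Nat.mul_le_mul_left _ h1
        _ = _ := by ring

theorem log_pow16 {b : ℕ} (hb : 1 ≤ b) (e : ℕ) :
    Real.log (16 * ((b ^ e : ℕ) : ℝ)) = Real.log 16 + e * Real.log b := by
  have hbR : (1 : ℝ) ≤ b := by exact_mod_cast hb
  rw [Real.log_mul (by norm_num) (by positivity)]
  push_cast
  rw [Real.log_pow]

/-- The chain of levels `s = 1, 2, 4, 8, …` -/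
theorem dec_chain (H : SimpleGraph V) (π : V → ℕ) (hπ : Function.Injective π) (d b l : ℕ)
    (hd1 : 1 ≤ d) (r : ℝ) (hr : 0 ≤ r) (hb : (4 * d) ^ 2 ≤ b) :
    ∀ t s : ℕ, 1 ≤ s → s ≤ l → l - s ≤ t → ∃ h : ℕ, h ≤ d.size + 3 * (l - s) + l + 1 ∧
      ∀ U : Finset V, (∀ v ∈ U, cnt H π U (π v) v ≤ d) → U.card < b ^ (2 ^ l) →
        (∀ v ∈ U, (nb H U v).card ≤ b ^ (2 ^ (l - s))) →
        Dec H π b r h (d.size * Real.log (16 * b) + 2 * d * r
          + (3 * ((l - s : ℕ) : ℝ) + l + 1) * (Real.log 16 + d * r)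
          + 6 * 2 ^ l * Real.log b / s) U := by
  have hb1 : 1 ≤ b := le_trans (by nlinarith) hb
  have hbR : (1 : ℝ) ≤ b := by exact_mod_cast hb1
  have h2d : 2 * d ≤ b := le_trans (by nlinarith) hb
  have hL0 : 0 ≤ Real.log (b : ℝ) := Real.log_nonneg hbR
  have hq0 : 0 ≤ Real.log 16 + d * r :=
    add_nonneg (Real.log_nonneg (by norm_num)) (mul_nonneg (Nat.cast_nonneg d) hr)
  have hbase : ∀ U : Finset V, (∀ v ∈ U, cnt H π U (π v) v ≤ d) → U.card < b ^ (2 ^ l) →
        (∀ v ∈ U, (nb H U v).card ≤ b) →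
        Dec H π b r d.size (d.size * Real.log (16 * b) + 2 * d * r) U := fun U h1 _ h2 =>
    dec_halve H π hπ b hb1 r hr d U h1 h2
  have hDbig : ∀ e : ℕ, (4 * d) ^ 2 ≤ b ^ (2 ^ e) := fun e =>
    hb.trans (Nat.le_self_pow (by positivity) b)
  have hDone : ∀ e : ℕ, 1 ≤ b ^ (2 ^ e) := fun e => Nat.one_le_pow _ _ hb1
  intro t
  induction t with
  | zero =>
    intro s hs hsl hls
    have hsl' : s = l := by omega
    subst hsl'
    refine ⟨d.size, by omega, fun U h1 h2 h3 => ?_⟩
    rw [Nat.sub_self, pow_zero, pow_one] at h3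
    refine (hbase U h1 h2 h3).mono ?_
    have e1 : 0 ≤ (3 * ((s - s : ℕ) : ℝ) + s + 1) * (Real.log 16 + d * r) := by positivity
    have e2 : 0 ≤ 6 * 2 ^ s * Real.log b / (s : ℝ) := by positivity
    linarith
  | succ t ih =>
    intro s hs hsl hls
    have hsR : (1 : ℝ) ≤ s := by exact_mod_cast hs
    have hpow := pow_ineq s hs
    have h2l : (2 : ℝ) ^ l = 2 ^ s * 2 ^ (l - s) := by
      rw [← pow_add]; congr 1; omega
    rcases Nat.lt_or_ge l (2 * s) with hcase | hcase
    · rcases Nat.eq_or_lt_of_le hsl with heq | hlt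
      · subst heq
        refine ⟨d.size, by omega, fun U h1 h2 h3 => ?_⟩
        rw [Nat.sub_self, pow_zero, pow_one] at h3
        refine (hbase U h1 h2 h3).mono ?_
        have e1 : 0 ≤ (3 * ((s - s : ℕ) : ℝ) + s + 1) * (Real.log 16 + d * r) := by positivity
        have e2 : 0 ≤ 6 * 2 ^ s * Real.log b / (s : ℝ) := by positivity
        linarith
      · -- last level
        refine ⟨d.size + (l + 1), by omega, fun U h1 h2 h3 => ?_⟩
        refine (dec_level H π hπ d b r h2d hb1 (b ^ (2 ^ (l - s))) b (hDone _) hb hb1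
          (b ^ (2 ^ l)) (l + 1) (by rw [← pow_mul]; exact le_of_eq (by congr 1)) d.size _
          hbase U h1 h2 h3).mono ?_
        rw [log_pow16 hb1]
        push_cast
        have e1 : ((l : ℝ) + 1) ≤ 2 * s := by exact_mod_cast hcase
        have e2 : ((s : ℝ) * (2 * s)) ≤ 6 * 2 ^ s := by
          have : s * (2 * s) ≤ 6 * 2 ^ s := by nlinarith
          exact_mod_cast this
        have e3 : ((l : ℝ) + 1) * (2 ^ (l - s) * Real.log b) ≤ 6 * 2 ^ l * Real.log b / s := by
          rw [le_div_iff₀ (by linarith), h2l]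
          have e4 : 0 ≤ (2 : ℝ) ^ (l - s) * Real.log b := by positivity
          calc ((l : ℝ) + 1) * (2 ^ (l - s) * Real.log b) * s
              = (s * (l + 1)) * (2 ^ (l - s) * Real.log b) := by ring
            _ ≤ (6 * 2 ^ s) * (2 ^ (l - s) * Real.log b) := by
                apply mul_le_mul_of_nonneg_right _ e4
                nlinarith
            _ = _ := by ring
        have e4 : 0 ≤ 3 * ((l - s : ℕ) : ℝ) * (Real.log 16 + d * r) := by positivity
        linarith
    · -- from `s` to `2 s`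
      obtain ⟨h, hh, hrec⟩ := ih (2 * s) (by omega) hcase (by omega)
      refine ⟨h + (2 * s + 1), by omega, fun U h1 h2 h3 => ?_⟩
      refine (dec_level H π hπ d b r h2d hb1 (b ^ (2 ^ (l - s))) (b ^ (2 ^ (l - 2 * s))) (hDone _)
        (hDbig _) (hDone _) (b ^ (2 ^ l)) (2 * s + 1) ?_ h _ hrec U h1 h2 h3).mono ?_
      · rw [← pow_mul, ← pow_mul, ← pow_add]
        apply le_of_eq
        rw [← pow_succ]
        congr 2
        omega
      · rw [log_pow16 hb1]
        push_cast
        have e1 : ((l - s : ℕ) : ℝ) = ((l - 2 * s : ℕ) : ℝ) + s := by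
          have : l - s = (l - 2 * s) + s := by omega
          exact_mod_cast this
        have e2 : ((s : ℝ) * (2 * s + 1)) ≤ 3 * 2 ^ s := by exact_mod_cast hpow
        have e3 : (2 * (s : ℝ) + 1) * (2 ^ (l - s) * Real.log b) ≤ 3 * 2 ^ l * Real.log b / s := by
          rw [le_div_iff₀ (by linarith), h2l]
          have e4 : 0 ≤ (2 : ℝ) ^ (l - s) * Real.log b := by positivity
          calc (2 * (s : ℝ) + 1) * (2 ^ (l - s) * Real.log b) * s
              = (s * (2 * s + 1)) * (2 ^ (l - s) * Real.log b) := by ring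
            _ ≤ (3 * 2 ^ s) * (2 ^ (l - s) * Real.log b) := mul_le_mul_of_nonneg_right e2 e4
            _ = _ := by ring
        have e4 : 6 * 2 ^ l * Real.log b / (s : ℝ)
            = 6 * 2 ^ l * Real.log b / (2 * (s : ℝ)) + 3 * 2 ^ l * Real.log b / s := by
          field_simp
          ring
        have e5 : (2 * (s : ℝ) + 1) * (Real.log 16 + d * r) ≤ 3 * s * (Real.log 16 + d * r) :=
          mul_le_mul_of_nonneg_right (by linarith) hq0
        rw [e1, e4]
        linarith

/-- The decomposition of a degenerate graph. -/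
theorem dec_all (H : SimpleGraph V) (π : V → ℕ) (hπ : Function.Injective π) (d b l : ℕ)
    (hd1 : 1 ≤ d) (r : ℝ) (hr : 0 ≤ r) (hb : (4 * d) ^ 2 ≤ b) :
    ∃ h : ℕ, h ≤ d.size + 4 * l ∧
      ∀ U : Finset V, (∀ v ∈ U, cnt H π U (π v) v ≤ d) → U.card < b ^ (2 ^ l) →
        Dec H π b r h (d.size * Real.log (16 * b) + 2 * d * r
          + 4 * l * (Real.log 16 + d * r) + 8 * 2 ^ l * Real.log b) U := by
  have hb1 : 1 ≤ b := le_trans (by nlinarith) hb
  have hbR : (1 : ℝ) ≤ b := by exact_mod_cast hb1
  have h2d : 2 * d ≤ b := le_trans (by nlinarith) hb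
  have hL0 : 0 ≤ Real.log (b : ℝ) := Real.log_nonneg hbR
  have hDone : ∀ e : ℕ, 1 ≤ b ^ (2 ^ e) := fun e => Nat.one_le_pow _ _ hb1
  have hDbig : ∀ e : ℕ, (4 * d) ^ 2 ≤ b ^ (2 ^ e) := fun e =>
    hb.trans (Nat.le_self_pow (by positivity) b)
  have htriv : ∀ U : Finset V, U.card < b ^ (2 ^ l) → ∀ v ∈ U, (nb H U v).card ≤ b ^ (2 ^ l) :=
    fun U hU v _ => (card_le_card (nb_subset H U v)).trans hU.le
  rcases Nat.eq_zero_or_pos l with rfl | hl
  · refine ⟨d.size, by omega, fun U h1 h2 => ?_⟩
    have h3 := htriv U h2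
    rw [pow_zero, pow_one] at h3
    refine (dec_halve H π hπ b hb1 r hr d U h1 h3).mono ?_
    have : 0 ≤ 8 * 2 ^ 0 * Real.log (b : ℝ) := by positivity
    push_cast
    linarith
  · obtain ⟨h, hh, hrec⟩ := dec_chain H π hπ d b l hd1 r hr hb (l - 1) 1 le_rfl hl (by omega)
    refine ⟨h + 2, by omega, fun U h1 h2 => ?_⟩
    refine (dec_level H π hπ d b r h2d hb1 (b ^ (2 ^ l)) (b ^ (2 ^ (l - 1))) (hDone _)
        (hDbig _) (hDone _) (b ^ (2 ^ l)) 2 ?_ h _ hrec U h1 h2 (htriv U h2)).mono ?_
    · rw [← pow_mul, ← pow_mul, ← pow_add]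
      apply le_of_eq
      rw [← pow_succ]
      congr 2
      omega
    · rw [log_pow16 hb1]
      have e1 : ((l - 1 : ℕ) : ℝ) = (l : ℝ) - 1 := by
        rw [Nat.cast_sub hl]; norm_num
      rw [e1]
      push_cast
      rw [div_one]
      linarith

end Pool.Agent.Work.MP_a883af_co.Zig
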