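import Pool.Agent.Work.MP_a883af_co.ZigDec
import Pool.Agent.Work.MP_a883af_co.Final

set_option autoImplicit false
set_option linter.unusedSectionVars false

/-!
# The Ramsey bounds
-/

namespace Pool.Agent.Work.MP_a883af_co.Zig

open Finset

theorem degeneracy_spec {n : ℕ} (H : SimpleGraph (Fin n)) :
    ∀ S : Finset (Fin n), S.Nonempty →
      ∃ v ∈ S, ({w : Fin n | w ∈ S ∧ H.Adj v w} : Set (Fin n)).ncard ≤ degeneracy H := by
  have hmem : degeneracy H ∈ {k : ℕ | ∀ S : Finset (Fin n), S.Nonempty →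
      ∃ v ∈ S, ({w : Fin n | w ∈ S ∧ H.Adj v w} : Set (Fin n)).ncard ≤ k} := by
    apply Nat.sInf_mem
    refine ⟨n, fun S hS => ?_⟩
    obtain ⟨x, hx⟩ := hS
    refine ⟨x, hx, ?_⟩
    calc ({w : Fin n | w ∈ S ∧ H.Adj x w} : Set (Fin n)).ncard
        ≤ (Set.univ : Set (Fin n)).ncard := Set.ncard_le_ncard (Set.subset_univ _)
      _ = n := by rw [Set.ncard_univ]; simp
  exact hmem

theorem exists_pi {n : ℕ} (H : SimpleGraph (Fin n)) :
    ∃ π : Fin n → ℕ, Function.Injective π ∧ ∀ v ∈ univ, cnt H π univ (π v) v ≤ degeneracy H := by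
  classical
  obtain ⟨π, h1, -, h3⟩ := exists_order H (degeneracy H) (by
    intro S hS
    obtain ⟨v, hv, hvd⟩ := degeneracy_spec H S hS
    refine ⟨v, hv, ?_⟩
    have : ({w : Fin n | w ∈ S ∧ H.Adj v w} : Set (Fin n)) = (nb H S v : Set (Fin n)) := by
      ext w
      rw [mem_coe, mem_nb]
      rfl
    rw [this, Set.ncard_coe_finset] at hvd
    exact hvd) _ univ rfl
  refine ⟨π, ?_, h3⟩
  intro a b hab
  exact h1 (by simp) (by simp) hab

theorem log_of_dec {n : ℕ} (hn : 1 ≤ n) (H : SimpleGraph (Fin n)) (π : Fin n → ℕ)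
    (hπ : Function.Injective π) (T M h : ℕ) (hT : 1 ≤ T) (hM : 1 ≤ M) (hh : h ≤ M) (c : ℝ)
    (hD : Dec H π T (Real.log (16 * M * 2 ^ M * T)) h c univ) :
    Real.log (ramseyNumber H : ℝ) ≤ Real.log (16 * n) + 2 * c := by
  classical
  have hMR : (1 : ℝ) ≤ M := by exact_mod_cast hM
  have hTR : (1 : ℝ) ≤ T := by exact_mod_cast hT
  have hnR : (1 : ℝ) ≤ n := by exact_mod_cast hn
  have h2M : (1 : ℝ) ≤ 2 ^ M := one_le_pow₀ (by norm_num)
  obtain ⟨R, hR⟩ : ∃ R : ℝ, R = 16 * M * 2 ^ M * T := ⟨_, rfl⟩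
  rw [← hR] at hD
  have hRR : (1 : ℝ) ≤ R := by
    rw [hR]
    have h1 : (1 : ℝ) * 1 * 1 * 1 ≤ 16 * M * 2 ^ M * T := by gcongr; norm_num
    linarith
  have hr : 0 ≤ Real.log R := Real.log_nonneg hRR
  have hc := hD.nonneg hr
  have hRne : R ≠ 0 := by linarith
  have hp : Par T M (1 / R) := by
    refine ⟨hM, by positivity, ?_, ?_⟩
    · rw [div_le_one (by positivity)]; exact hRR
    · have : (T : ℝ) * (8 * 2 ^ M * (1 / R)) = 1 / (2 * (M : ℝ)) := by
        rw [hR]
        field_simp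
        norm_num
      exact this.le
  have hlogρ : -Real.log (1 / R) = Real.log R := by
    rw [one_div, Real.log_inv, neg_neg]
  obtain ⟨N, hN⟩ : ∃ N : ℕ, N = ⌈8 * (n : ℝ) * Real.exp (2 * c)⌉₊ := ⟨_, rfl⟩
  have hexp : (1 : ℝ) ≤ Real.exp (2 * c) := Real.one_le_exp (by linarith)
  have hN1 : 8 * (n : ℝ) * Real.exp (2 * c) ≤ N := by rw [hN]; exact Nat.le_ceil _
  have hN2 : (N : ℝ) ≤ 16 * n * Real.exp (2 * c) := by
    have h1 : (N : ℝ) < 8 * (n : ℝ) * Real.exp (2 * c) + 1 := by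
      rw [hN]; exact Nat.ceil_lt_add_one (by positivity)
    have h2 : (1 : ℝ) * 1 ≤ n * Real.exp (2 * c) := by gcongr
    nlinarith
  have hNpos : (0 : ℝ) < N := lt_of_lt_of_le (by positivity) hN1
  have hNpos' : 0 < N := by exact_mod_cast hNpos
  have hle : ramseyNumber H ≤ N := by
    apply Nat.sInf_le
    intro G
    have : Nonempty (Fin N) := ⟨⟨0, hNpos'⟩⟩
    rw [← hlogρ] at hD
    have key := zig hp hn H π hπ (h + h) h h c c rfl hh hh G univ univ (by simp) (by simp)
      hD hD univ (by rw [card_univ, Fintype.card_fin]; exact hNpos) (by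
        rw [card_univ, Fintype.card_fin, add_assoc, ← two_mul]
        have h1 := Real.log_le_log (by positivity) hN1
        rw [Real.log_mul (by positivity) (by positivity), Real.log_exp] at h1
        exact h1)
    have hth : 0 ≤ th M h := by
      unfold th
      have h1 : (h : ℝ) ≤ M := by exact_mod_cast hh
      have h2 : (h : ℝ) / (2 * (M : ℝ)) ≤ 1 / 2 := by
        rw [div_le_iff₀ (by linarith)]; linarith
      linarith
    have hfin : ∀ F : SimpleGraph (Fin N), Flex H F univ univ (th M h) (2 ^ h) → Copy H F := by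
      intro F hF
      obtain ⟨P, -, -, h3⟩ := hF
      obtain ⟨φ, -, h5, h6⟩ := h3 P (fun v _ => ⟨Subset.rfl, by
        have := mul_nonneg hth (Nat.cast_nonneg (α := ℝ) (P v).card)
        linarith⟩)
      exact ⟨φ, fun a b hab => h5 (by simp) (by simp) hab,
        fun u v huv => h6 u (mem_univ _) v (mem_univ _) huv⟩
    exact key.imp (hfin G) (hfin Gᶜ)
  rcases Nat.eq_zero_or_pos (ramseyNumber H) with hr0 | hr0
  · rw [hr0, Nat.cast_zero, Real.log_zero]
    have : 0 ≤ Real.log (16 * n) := Real.log_nonneg (by linarith)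
    linarith
  · have h1 : (ramseyNumber H : ℝ) ≤ 16 * n * Real.exp (2 * c) := by
      have : (ramseyNumber H : ℝ) ≤ N := by exact_mod_cast hle
      linarith
    have h2 := Real.log_le_log (by exact_mod_cast hr0) h1
    rw [Real.log_mul (by positivity) (by positivity), Real.log_exp] at h2
    exact h2

theorem size_pos {d : ℕ} (hd : 1 ≤ d) : 1 ≤ d.size := Nat.size_pos.2 hd

theorem two_le_of_degeneracy {n : ℕ} (H : SimpleGraph (Fin n)) (hd : 1 ≤ degeneracy H) :
    degeneracy H + 1 ≤ n := by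
  have h0 : degeneracy H ≤ n - 1 := by
    apply Nat.sInf_le
    intro S hS
    obtain ⟨v, hv⟩ := hS
    refine ⟨v, hv, ?_⟩
    calc ({w : Fin n | w ∈ S ∧ H.Adj v w} : Set (Fin n)).ncard
        ≤ ((univ.erase v : Finset (Fin n)) : Set (Fin n)).ncard := by
          apply Set.ncard_le_ncard _ (Set.toFinite _)
          intro w hw
          have hvw : H.Adj v w := hw.2
          simp [hvw.ne']
      _ = n - 1 := by rw [Set.ncard_coe_finset, card_erase_of_mem (mem_univ _)]; simp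
  omega

theorem log_two_bounds : (0.69 : ℝ) ≤ Real.log 2 ∧ Real.log 2 ≤ 0.7 := by
  have h1 := Real.log_two_gt_d9
  have h2 := Real.log_two_lt_d9
  constructor <;> linarith

theorem log16 : Real.log (16 : ℝ) = 4 * Real.log 2 := by
  rw [show (16 : ℝ) = 2 ^ 4 by norm_num, Real.log_pow]; norm_num

theorem two_pow_size_le {m : ℕ} (hm : 1 ≤ m) : 2 ^ m.size ≤ 2 * m := by
  have h1 : 1 ≤ m.size := Nat.size_pos.2 hm
  have h2 : 2 ^ (m.size - 1) ≤ m := by
    by_contra hcon
    have := Nat.size_le.2 (not_le.1 hcon)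
    omega
  have h3 : 2 ^ m.size = 2 * 2 ^ (m.size - 1) := by
    rw [← pow_succ']
    congr 1
    omega
  omega

/-- `l ≤ 1.45 log m + 1.02` if `2 ^ l ≤ 2 m`. -/
theorem le_of_two_pow_le {l : ℕ} {x : ℝ} (h : (2 : ℝ) ^ l ≤ x) :
    (l : ℝ) * 0.69 ≤ Real.log x := by
  have h3 := Real.log_le_log (by positivity) h
  rw [Real.log_pow] at h3
  have h4 := log_two_bounds.1
  have h5 : (l : ℝ) * 0.69 ≤ l * Real.log 2 :=
    mul_le_mul_of_nonneg_left h4 (Nat.cast_nonneg _)
  linarith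

theorem size_le_log {d : ℕ} (hd : 2 ≤ d) : (d.size : ℝ) ≤ 3 * Real.log d := by
  have hdR : (2 : ℝ) ≤ d := by exact_mod_cast hd
  have h1 : ((2 : ℝ)) ^ d.size ≤ 2 * d := by exact_mod_cast two_pow_size_le (by omega : 1 ≤ d)
  have h2 : ((2 : ℝ)) ^ d.size ≤ (d : ℝ) ^ 2 := by nlinarith
  have h3 := le_of_two_pow_le h2
  rw [Real.log_pow] at h3
  push_cast at h3
  have h6 : 0 ≤ Real.log (d : ℝ) := Real.log_nonneg (by linarith)
  linarith

theorem log_R_le {M b : ℕ} (hM : 1 ≤ M) (hb : 1 ≤ b) :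
    Real.log (16 * M * 2 ^ M * b) ≤ 4 * Real.log 2 + 2 * M * Real.log 2 + Real.log b := by
  have hMR : (1 : ℝ) ≤ M := by exact_mod_cast hM
  have hbR : (1 : ℝ) ≤ b := by exact_mod_cast hb
  have h1 : (M : ℝ) ≤ 2 ^ M := by exact_mod_cast Nat.lt_two_pow_self.le
  have h2 : (16 * M * 2 ^ M * b : ℝ) ≤ 16 * 2 ^ M * 2 ^ M * b := by gcongr
  have h3 := Real.log_le_log (by positivity) h2
  have h4 : Real.log (16 * 2 ^ M * 2 ^ M * (b : ℝ))
      = 4 * Real.log 2 + M * Real.log 2 + M * Real.log 2 + Real.log b := by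
    rw [Real.log_mul (by positivity) (by positivity), Real.log_mul (by positivity) (by positivity),
      Real.log_mul (by positivity) (by positivity), Real.log_pow, log16]
  linarith

theorem log_R_nonneg {M b : ℕ} (hM : 1 ≤ M) (hb : 1 ≤ b) :
    0 ≤ Real.log (16 * M * 2 ^ M * b) := by
  have hMR : (1 : ℝ) ≤ M := by exact_mod_cast hM
  have hbR : (1 : ℝ) ≤ b := by exact_mod_cast hb
  have h2M : (1 : ℝ) ≤ 2 ^ M := one_le_pow₀ (by norm_num)
  apply Real.log_nonneg
  have h1 : (1 : ℝ) * 1 * 1 * 1 ≤ 16 * M * 2 ^ M * b := by gcongr; norm_num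
  linarith

/-- The general bound with parameters `b` and `l`. -/
theorem log_param {n : ℕ} (H : SimpleGraph (Fin n)) (hd : 1 ≤ degeneracy H) (b l : ℕ)
    (hb : (4 * degeneracy H) ^ 2 ≤ b) (hn : n < b ^ (2 ^ l)) :
    Real.log (ramseyNumber H : ℝ) ≤ Real.log (16 * n) +
      2 * ((degeneracy H).size * Real.log (16 * b) +
        2 * degeneracy H * Real.log (16 * ((degeneracy H).size + 4 * l : ℕ) *
          2 ^ ((degeneracy H).size + 4 * l) * b)
        + 4 * l * (Real.log 16 + degeneracy H * Real.log (16 * ((degeneracy H).size + 4 * l : ℕ) *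
          2 ^ ((degeneracy H).size + 4 * l) * b)) + 8 * 2 ^ l * Real.log b) := by
  obtain ⟨π, h1, h2⟩ := exists_pi H
  have hn1 := two_le_of_degeneracy H hd
  have hs := size_pos hd
  have hb1 : 1 ≤ b := le_trans (by nlinarith) hb
  have hbR : (1 : ℝ) ≤ b := by exact_mod_cast hb1
  have hMR : (1 : ℝ) ≤ ((degeneracy H).size + 4 * l : ℕ) := by
    have : 1 ≤ (degeneracy H).size + 4 * l := by omega
    exact_mod_cast this
  have h2M : (1 : ℝ) ≤ 2 ^ ((degeneracy H).size + 4 * l) := one_le_pow₀ (by norm_num)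
  have hR : (1 : ℝ) ≤ 16 * ((degeneracy H).size + 4 * l : ℕ) *
          2 ^ ((degeneracy H).size + 4 * l) * b := by
    have h1 : (1 : ℝ) * 1 * 1 * 1 ≤ 16 * ((degeneracy H).size + 4 * l : ℕ) *
          2 ^ ((degeneracy H).size + 4 * l) * b := by gcongr; norm_num
    linarith
  obtain ⟨h, hh, hdec⟩ := dec_all H π h1 (degeneracy H) b l hd _ (Real.log_nonneg hR) hb
  exact log_of_dec (by omega) H π h1 b ((degeneracy H).size + 4 * l) h hb1 (by omega) hh _
    (hdec univ h2 (by rwa [card_univ, Fintype.card_fin]))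

/-- Bounded maximum degree. -/
theorem log_deg {n : ℕ} (H : SimpleGraph (Fin n)) (hd : 1 ≤ degeneracy H) (Δ : ℕ) (hΔ : 2 ≤ Δ)
    (hH : ∀ v, ({w : Fin n | H.Adj v w} : Set (Fin n)).ncard ≤ Δ) :
    Real.log (ramseyNumber H : ℝ) ≤
      Real.log n + 60 * (degeneracy H * Real.log Δ) := by
  classical
  have hdΔ : degeneracy H ≤ Δ := by
    apply Nat.sInf_le
    intro S hS
    obtain ⟨v, hv⟩ := hS
    exact ⟨v, hv, (Set.ncard_le_ncard (fun w hw => hw.2) (Set.toFinite _)).trans (hH v)⟩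
  have hn := two_le_of_degeneracy H hd
  obtain ⟨π, h1, h2⟩ := exists_pi H
  have hs := size_pos hd
  have hsR : (1 : ℝ) ≤ (degeneracy H).size := by exact_mod_cast hs
  have hΔR : (2 : ℝ) ≤ Δ := by exact_mod_cast hΔ
  have h2M : (1 : ℝ) ≤ 2 ^ (degeneracy H).size := one_le_pow₀ (by norm_num)
  have hR : (1 : ℝ) ≤ 16 * ((degeneracy H).size : ℕ) * 2 ^ ((degeneracy H).size) * Δ := by
    have h1 : (1 : ℝ) * 1 * 1 * 1 ≤ 16 * ((degeneracy H).size : ℕ) *
          2 ^ ((degeneracy H).size) * Δ := by gcongr <;> linarith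
    linarith
  have hdec := dec_halve H π h1 Δ (by omega) _ (Real.log_nonneg hR) (degeneracy H) univ h2 (by
    intro v _
    have : ({w : Fin n | H.Adj v w} : Set (Fin n)) = (nb H univ v : Set (Fin n)) := by
      ext w
      rw [mem_coe, mem_nb]
      simp
    have h3 := hH v
    rw [this, Set.ncard_coe_finset] at h3
    exact h3)
  have key := log_of_dec (by omega) H π h1 Δ (degeneracy H).size (degeneracy H).size (by omega) hs
    le_rfl _ hdec
  have hR2 := log_R_le hs (show 1 ≤ Δ by omega)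
  have hs3 : ((degeneracy H).size : ℝ) ≤ 3 * Real.log Δ := by
    have e1 : (2 : ℝ) ^ (degeneracy H).size ≤ 2 * degeneracy H := by
      exact_mod_cast two_pow_size_le hd
    have e2 : (degeneracy H : ℝ) ≤ Δ := by exact_mod_cast hdΔ
    have e3 : (2 : ℝ) ^ (degeneracy H).size ≤ (Δ : ℝ) ^ 2 := by nlinarith
    have e4 := le_of_two_pow_le e3
    rw [Real.log_pow] at e4
    push_cast at e4
    have e5 : 0 ≤ Real.log (Δ : ℝ) := Real.log_nonneg (by linarith)
    linarith
  have hsd : ((degeneracy H).size : ℝ) ≤ degeneracy H := by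
    have : (degeneracy H).size ≤ degeneracy H := by
      have e1 := two_pow_size_le hd
      have e2 : (degeneracy H).size < 2 ^ ((degeneracy H).size - 1 + 1) := by
        have : (degeneracy H).size - 1 + 1 = (degeneracy H).size := by omega
        rw [this]
        exact Nat.lt_two_pow_self
      have e3 : (degeneracy H).size - 1 < 2 ^ ((degeneracy H).size - 1) := Nat.lt_two_pow_self
      have e4 : 2 ^ (degeneracy H).size = 2 * 2 ^ ((degeneracy H).size - 1) := by
        rw [← pow_succ']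
        congr 1
        omega
      omega
    exact_mod_cast this
  generalize degeneracy H = d at *
  have hdR : (1 : ℝ) ≤ d := by exact_mod_cast hd
  have hnR : (2 : ℝ) ≤ n := by
    have : 2 ≤ n := by omega
    exact_mod_cast this
  have hl2 := log_two_bounds
  have hΔ2 : Real.log 2 ≤ Real.log (Δ : ℝ) := Real.log_le_log (by norm_num) hΔR
  rw [Real.log_mul (by norm_num) (by positivity), log16] at key
  have e0 : Real.log (16 * (Δ : ℝ)) ≤ 5 * Real.log Δ := by
    rw [Real.log_mul (by norm_num) (by positivity), log16]; linarith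
  generalize Real.log (Δ : ℝ) = y at *
  have hy0 : 0.69 ≤ y := by linarith
  have e1 : (d.size : ℝ) * Real.log (16 * (Δ : ℝ)) ≤ d * (5 * y) :=
    mul_le_mul hsd e0 (Real.log_nonneg (by linarith)) (by linarith)
  have e2 : Real.log (16 * (d.size : ℝ) * 2 ^ d.size * Δ) ≤ 10 * y := by
    refine hR2.trans ?_
    have : (d.size : ℝ) * Real.log 2 ≤ (3 * y) * 0.7 :=
      mul_le_mul hs3 hl2.2 (by linarith) (by linarith)
    linarith
  have e3 : 2 * (d : ℝ) * Real.log (16 * (d.size : ℝ) * 2 ^ d.size * Δ) ≤ 2 * d * (10 * y) :=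
    mul_le_mul_of_nonneg_left e2 (by linarith)
  have e4 : y ≤ d * y := by nlinarith
  nlinarith

theorem ramsey_zero {n : ℕ} (H : SimpleGraph (Fin n)) (hd : degeneracy H = 0) :
    ramseyNumber H ≤ n := by
  apply Nat.sInf_le
  intro G
  left
  refine ⟨id, Function.injective_id, fun u v huv => ?_⟩
  exfalso
  obtain ⟨x, hx, hxc⟩ := degeneracy_spec H {u, v} ⟨u, by simp⟩
  rw [hd, Nat.le_zero, Set.ncard_eq_zero (Set.toFinite _)] at hxc
  rcases mem_insert.1 hx with rfl | hx
  · have h2 : v ∈ {w : Fin n | w ∈ ({x, v} : Finset (Fin n)) ∧ H.Adj x w} := ⟨by simp, huv⟩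
    rw [hxc] at h2
    exact h2
  · rw [mem_singleton] at hx
    subst hx
    have h2 : u ∈ {w : Fin n | w ∈ ({u, x} : Finset (Fin n)) ∧ H.Adj x w} := ⟨by simp, huv.symm⟩
    rw [hxc] at h2
    exact h2

theorem log_deg' {n : ℕ} (H : SimpleGraph (Fin n)) (Δ : ℕ) (hΔ : 2 ≤ Δ)
    (hH : ∀ v, ({w : Fin n | H.Adj v w} : Set (Fin n)).ncard ≤ Δ) :
    Real.log (ramseyNumber H : ℝ) ≤
      Real.log n + 60 * (degeneracy H * Real.log Δ) := by
  rcases Nat.eq_zero_or_pos (degeneracy H) with hd | hd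
  · have h := ramsey_zero H hd
    rw [hd, Nat.cast_zero, zero_mul, mul_zero, add_zero]
    rcases Nat.eq_zero_or_pos (ramseyNumber H) with hr | hr
    · rw [hr, Nat.cast_zero, Real.log_zero]
      exact Real.log_natCast_nonneg n
    · exact Real.log_le_log (by exact_mod_cast hr) (by exact_mod_cast h)
  · exact log_deg H hd Δ hΔ hH

/-- First case: `log n ≤ 2 d² log (16 d²)`. -/
theorem log_case1 {n : ℕ} (H : SimpleGraph (Fin n)) (hd : 2 ≤ degeneracy H)
    (hx : Real.log n ≤ 2 * (degeneracy H : ℝ) ^ 2 * Real.log (16 * (degeneracy H : ℝ) ^ 2)) :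
    Real.log (ramseyNumber H : ℝ) ≤ 1500 * (Real.log n + degeneracy H * Real.log (degeneracy H) *
      Real.log (2 + Real.log n / Real.log (degeneracy H))) := by
  have key := log_param H (by omega)
  have hn := two_le_of_degeneracy H (by omega)
  generalize degeneracy H = d at *
  have hdR : (2 : ℝ) ≤ d := by exact_mod_cast hd
  have hnR : (d : ℝ) ≤ n := by
    have : d ≤ n := by omega
    exact_mod_cast this
  have hl2 := log_two_bounds
  have hs3 := size_le_log hd
  have hyx : Real.log (d : ℝ) ≤ Real.log n := Real.log_le_log (by linarith) hnR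
  have h2y : Real.log 2 ≤ Real.log (d : ℝ) := Real.log_le_log (by norm_num) hdR
  have hlb : Real.log (((4 * d) ^ 2 : ℕ) : ℝ) = 4 * Real.log 2 + 2 * Real.log d := by
    have e1 : (((4 * d) ^ 2 : ℕ) : ℝ) = 16 * (d : ℝ) ^ 2 := by push_cast; ring
    rw [e1, Real.log_mul (by norm_num) (by positivity), log16, Real.log_pow]
    norm_num
  have hlb' : Real.log (16 * (d : ℝ) ^ 2) = 4 * Real.log 2 + 2 * Real.log d := by
    rw [Real.log_mul (by norm_num) (by positivity), log16, Real.log_pow]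
    norm_num
  rw [hlb'] at hx
  obtain ⟨x, hxx⟩ : ∃ x : ℝ, x = Real.log n := ⟨_, rfl⟩
  obtain ⟨y, hyy⟩ : ∃ y : ℝ, y = Real.log d := ⟨_, rfl⟩
  obtain ⟨B, hB⟩ : ∃ B : ℝ, B = 4 * Real.log 2 + 2 * y := ⟨_, rfl⟩
  obtain ⟨Λ, hΛ⟩ : ∃ Λ : ℝ, Λ = Real.log (2 + x / y) := ⟨_, rfl⟩
  rw [← hxx, ← hyy, ← hΛ]
  rw [← hxx, ← hyy, ← hB] at hx
  rw [← hyy, ← hB] at hlb
  rw [← hyy] at hs3 h2y hyx
  rw [← hxx] at hyx
  have hy0 : 0.69 ≤ y := by linarith
  have hxy0 : 0 ≤ x / y := by
    have : 0 ≤ x := by linarith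
    positivity
  have hΛ0 : 0.69 ≤ Λ := by
    rw [hΛ]
    exact hl2.1.trans (Real.log_le_log (by norm_num) (by linarith))
  have hB6 : B ≤ 6 * y := by linarith
  have hB2 : 2 * y ≤ B := by linarith
  have hBpos : 0 < B := by linarith
  -- the minimal `l`
  have hex : ∃ l : ℕ, n < ((4 * d) ^ 2) ^ (2 ^ l) := by
    refine ⟨n, ?_⟩
    calc n < 2 ^ n := Nat.lt_two_pow_self
      _ ≤ 2 ^ (2 ^ n) := Nat.pow_le_pow_right (by norm_num) Nat.lt_two_pow_self.le
      _ ≤ ((4 * d) ^ 2) ^ (2 ^ n) := Nat.pow_le_pow_left (by nlinarith) _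
  obtain ⟨l, hl, hmin⟩ : ∃ l : ℕ, n < ((4 * d) ^ 2) ^ (2 ^ l) ∧
      (1 ≤ l → ((4 * d) ^ 2) ^ (2 ^ (l - 1)) ≤ n) := by
    classical
    refine ⟨Nat.find hex, Nat.find_spec hex, fun h1 => ?_⟩
    exact not_lt.1 (Nat.find_min hex (by omega))
  have hF : (2 : ℝ) ^ l * B ≤ 2 * x + 6 * y ∧ (l : ℝ) * 0.69 ≤ Λ ∧ (l : ℝ) ≤ 6 * y := by
    rcases Nat.eq_zero_or_pos l with rfl | hl1
    · refine ⟨?_, ?_, ?_⟩
      · rw [pow_zero, one_mul]; linarith
      · push_cast; linarith
      · push_cast; linarith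
    · have h1 := hmin hl1
      have h2 : (2 : ℝ) ^ (l - 1) * B ≤ x := by
        have e1 : (((((4 * d) ^ 2) ^ (2 ^ (l - 1)) : ℕ)) : ℝ) ≤ n := by exact_mod_cast h1
        have e2 := Real.log_le_log (by positivity) e1
        rw [← hxx] at e2
        have e3 : Real.log (((((4 * d) ^ 2) ^ (2 ^ (l - 1)) : ℕ)) : ℝ)
            = 2 ^ (l - 1) * Real.log (((4 * d) ^ 2 : ℕ) : ℝ) := by
          rw [Nat.cast_pow, Real.log_pow]; push_cast; ring
        rw [e3, hlb] at e2
        exact e2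
      have h3 : (2 : ℝ) ^ l = 2 * 2 ^ (l - 1) := by
        rw [← pow_succ']
        congr 1
        omega
      have h4 : (2 : ℝ) ^ l * B ≤ 2 * x := by rw [h3]; linarith
      refine ⟨by linarith, ?_, ?_⟩
      · rw [hΛ]
        apply le_of_two_pow_le
        have e1 : (2 : ℝ) ^ l ≤ x / y := by
          rw [le_div_iff₀ (by linarith)]
          have : (2 : ℝ) ^ l * (2 * y) ≤ 2 ^ l * B := mul_le_mul_of_nonneg_left hB2 (by positivity)
          linarith
        linarith
      · have e1 : (2 : ℝ) ^ l ≤ (d : ℝ) ^ 4 := by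
          have e2 : (2 : ℝ) ^ l * B ≤ (4 * (d : ℝ) ^ 2) * B := by linarith
          have e3 := le_of_mul_le_mul_right e2 hBpos
          have e4 : 4 * (d : ℝ) ^ 2 ≤ (d : ℝ) ^ 4 := by
            have : (4 : ℝ) ≤ (d : ℝ) ^ 2 := by nlinarith
            calc 4 * (d : ℝ) ^ 2 ≤ (d : ℝ) ^ 2 * (d : ℝ) ^ 2 :=
                  mul_le_mul_of_nonneg_right this (by positivity)
              _ = _ := by ring
          linarith
        have e2 := le_of_two_pow_le e1
        rw [Real.log_pow, ← hyy] at e2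
        push_cast at e2
        linarith
  obtain ⟨hF1, hF2, hF3⟩ := hF
  have hR := log_R_le (M := d.size + 4 * l) (b := (4 * d) ^ 2)
    (by have := size_pos (show 1 ≤ d by omega); omega) (by nlinarith)
  have k2 := key ((4 * d) ^ 2) l le_rfl hl
  generalize Real.log (16 * ((d.size + 4 * l : ℕ) : ℝ) * 2 ^ (d.size + 4 * l)
    * (((4 * d) ^ 2 : ℕ) : ℝ)) = LR at hR k2
  have h16b : Real.log (16 * (((4 * d) ^ 2 : ℕ) : ℝ)) = 4 * Real.log 2 + B := by
    rw [Real.log_mul (by norm_num) (by positivity), log16, hlb]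
  have h16n : Real.log (16 * (n : ℝ)) = 4 * Real.log 2 + x := by
    rw [Real.log_mul (by norm_num) (by linarith), log16, hxx]
  rw [h16b, h16n, hlb, log16] at k2
  rw [hlb] at hR
  push_cast at hR
  have hLR : LR ≤ 48 * y := by
    have e1 : ((d.size : ℝ) + 4 * l) * Real.log 2 ≤ (27 * y) * 0.7 :=
      mul_le_mul (by linarith) hl2.2 (by linarith) (by linarith)
    linarith
  have hl0 : (0 : ℝ) ≤ l := Nat.cast_nonneg l
  have hdy0 : 0 ≤ (d : ℝ) * y := by positivity
  have hyd : y ≤ d := by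
    rw [hyy]
    have := Real.log_le_sub_one_of_pos (show (0 : ℝ) < d by linarith)
    linarith
  have t1 : (d.size : ℝ) * (4 * Real.log 2 + B) ≤ (3 * y) * (10 * y) :=
    mul_le_mul hs3 (by linarith) (by linarith) (by linarith)
  have t2 : 2 * (d : ℝ) * LR ≤ 2 * d * (48 * y) := mul_le_mul_of_nonneg_left hLR (by linarith)
  have t3 : 4 * Real.log 2 + (d : ℝ) * LR ≤ 50 * (d * y) := by
    have e1 : (d : ℝ) * LR ≤ d * (48 * y) := mul_le_mul_of_nonneg_left hLR (by linarith)
    nlinarith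
  have t4 : 4 * (l : ℝ) * (4 * Real.log 2 + d * LR) ≤ 4 * l * (50 * (d * y)) :=
    mul_le_mul_of_nonneg_left t3 (by linarith)
  have t5 : (l : ℝ) * (d * y) ≤ (Λ / 0.69) * (d * y) := by
    apply mul_le_mul_of_nonneg_right _ hdy0
    rw [le_div_iff₀ (by norm_num)]
    exact hF2
  have t6 : (d : ℝ) * y ≤ (Λ / 0.69) * (d * y) := by
    have : 1 ≤ Λ / 0.69 := by rw [le_div_iff₀ (by norm_num)]; linarith
    nlinarith
  have t7 : y * y ≤ d * y := mul_le_mul_of_nonneg_right hyd (by linarith)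
  have t8 : (Λ / 0.69) * (d * y) ≤ 1.45 * (d * y * Λ) := by
    have e1 : Λ / 0.69 ≤ 1.45 * Λ := by
      rw [div_le_iff₀ (by norm_num)]; nlinarith
    calc (Λ / 0.69) * (d * y) ≤ (1.45 * Λ) * (d * y) := mul_le_mul_of_nonneg_right e1 hdy0
      _ = _ := by ring
  have t9 : 0 ≤ d * y * Λ := mul_nonneg hdy0 (by linarith)
  nlinarith

/-- Second case: `log n > 2 d² log (16 d²)`. -/
theorem log_case2 {n : ℕ} (H : SimpleGraph (Fin n)) (hd : 2 ≤ degeneracy H)
    (hx : 2 * (degeneracy H : ℝ) ^ 2 * Real.log (16 * (degeneracy H : ℝ) ^ 2) < Real.log n) :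
    Real.log (ramseyNumber H : ℝ) ≤ 1500 * Real.log n := by
  have key := log_param H (by omega)
  have hn := two_le_of_degeneracy H (by omega)
  generalize degeneracy H = d at *
  have hdR : (2 : ℝ) ≤ d := by exact_mod_cast hd
  have hnR : (d : ℝ) ≤ n := by
    have : d ≤ n := by omega
    exact_mod_cast this
  have hl2 := log_two_bounds
  have hs3 := size_le_log hd
  have h2y : Real.log 2 ≤ Real.log (d : ℝ) := Real.log_le_log (by norm_num) hdR
  have hlb' : Real.log (16 * (d : ℝ) ^ 2) = 4 * Real.log 2 + 2 * Real.log d := by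
    rw [Real.log_mul (by norm_num) (by positivity), log16, Real.log_pow]
    norm_num
  obtain ⟨x, hxx⟩ : ∃ x : ℝ, x = Real.log n := ⟨_, rfl⟩
  rw [← hxx]
  have hx0 := hx
  rw [hlb', ← hxx] at hx
  have hyd : Real.log (d : ℝ) ≤ d := by
    have := Real.log_le_sub_one_of_pos (show (0 : ℝ) < d by linarith)
    linarith
  obtain ⟨l, hl⟩ : ∃ l : ℕ, l = (d ^ 2).size := ⟨_, rfl⟩
  have hl1 : (d : ℝ) ^ 2 ≤ 2 ^ l := by
    have : d ^ 2 < 2 ^ l := by rw [hl]; exact Nat.lt_size_self _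
    exact_mod_cast this.le
  have hl2' : (2 : ℝ) ^ l ≤ 2 * (d : ℝ) ^ 2 := by
    have : 2 ^ l ≤ 2 * d ^ 2 := by rw [hl]; exact two_pow_size_le (by nlinarith)
    exact_mod_cast this
  have hlp : (0 : ℝ) < 2 ^ l := by positivity
  obtain ⟨E, hE⟩ : ∃ E : ℝ, E = Real.exp (x / 2 ^ l) := ⟨_, rfl⟩
  have hxl : x / 2 ^ l ≤ x / (d : ℝ) ^ 2 := by
    apply div_le_div_of_nonneg_left _ (by positivity) hl1
    have : 0 ≤ 2 * (d : ℝ) ^ 2 * (4 * Real.log 2 + 2 * Real.log d) := by
      have : 0 ≤ 4 * Real.log 2 + 2 * Real.log (d : ℝ) := by linarith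
      positivity
    linarith
  have hE16 : 16 * (d : ℝ) ^ 2 ≤ E := by
    rw [hE, ← Real.log_le_iff_le_exp (by positivity), le_div_iff₀ hlp, hlb']
    have : (4 * Real.log 2 + 2 * Real.log d) * 2 ^ l
        ≤ (4 * Real.log 2 + 2 * Real.log d) * (2 * (d : ℝ) ^ 2) :=
      mul_le_mul_of_nonneg_left hl2' (by linarith)
    linarith
  have hE1 : 1 ≤ E := by nlinarith
  obtain ⟨b, hb⟩ : ∃ b : ℕ, b = ⌊E⌋₊ + 1 := ⟨_, rfl⟩
  have hbE : E < b := by rw [hb]; push_cast; exact Nat.lt_floor_add_one E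
  have hbE2 : (b : ℝ) ≤ 2 * E := by
    rw [hb]; push_cast
    have := Nat.floor_le (show 0 ≤ E by linarith)
    linarith
  have hb16 : (4 * d) ^ 2 ≤ b := by
    have : (((4 * d) ^ 2 : ℕ) : ℝ) ≤ b := by push_cast; nlinarith
    exact_mod_cast this
  have hb1 : 1 ≤ b := by omega
  have hnb : n < b ^ (2 ^ l) := by
    have e1 : (n : ℝ) = E ^ (2 ^ l) := by
      rw [hE, ← Real.exp_nat_mul]
      push_cast
      rw [mul_div_cancel₀ _ (by positivity), hxx, Real.exp_log (by linarith)]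
    have e2 : E ^ (2 ^ l) < (b : ℝ) ^ (2 ^ l) :=
      pow_lt_pow_left₀ hbE (by linarith) (by positivity)
    have e3 : (n : ℝ) < (b : ℝ) ^ (2 ^ l) := by rw [e1]; exact e2
    exact_mod_cast e3
  have hlogb : Real.log b ≤ 0.7 + x / 2 ^ l := by
    have e1 := Real.log_le_log (by linarith) hbE2
    rw [Real.log_mul (by norm_num) (by linarith), hE, Real.log_exp] at e1
    linarith
  have hlogb0 : 0 ≤ Real.log (b : ℝ) := Real.log_natCast_nonneg b
  have hR := log_R_le (M := d.size + 4 * l) (b := b)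
    (by have := size_pos (show 1 ≤ d by omega); omega) hb1
  have hR0 := log_R_nonneg (M := d.size + 4 * l) (b := b)
    (by have := size_pos (show 1 ≤ d by omega); omega) hb1
  have k2 := key b l hb16 hnb
  generalize Real.log (16 * ((d.size + 4 * l : ℕ) : ℝ) * 2 ^ (d.size + 4 * l)
    * (b : ℝ)) = LR at hR k2 hR0
  push_cast at hR
  have h16b : Real.log (16 * (b : ℝ)) = 4 * Real.log 2 + Real.log b := by
    rw [Real.log_mul (by norm_num) (by linarith), log16]
  have h16n : Real.log (16 * (n : ℝ)) = 4 * Real.log 2 + x := by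
    rw [Real.log_mul (by norm_num) (by linarith), log16, hxx]
  rw [h16b, h16n, log16] at k2
  have hl5 : (l : ℝ) ≤ 5 * Real.log d := by
    have e1 : (2 : ℝ) ^ l ≤ (d : ℝ) ^ 3 := by nlinarith
    have e2 := le_of_two_pow_le e1
    rw [Real.log_pow] at e2
    push_cast at e2
    linarith
  generalize Real.log (d : ℝ) = y at *
  have hy0 : 0.69 ≤ y := by linarith
  obtain ⟨z, hz⟩ : ∃ z : ℝ, z = x / (d : ℝ) ^ 2 := ⟨_, rfl⟩
  have hxz : x = z * (d : ℝ) ^ 2 := by rw [hz]; field_simp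
  rw [← hz] at hxl
  have hd2 : (4 : ℝ) ≤ (d : ℝ) ^ 2 := by nlinarith
  have hzy : 8 * Real.log 2 + 4 * y ≤ z := by
    have e1 : (8 * Real.log 2 + 4 * y) * (d : ℝ) ^ 2 ≤ z * (d : ℝ) ^ 2 := by
      rw [← hxz]; linarith
    exact le_of_mul_le_mul_right e1 (by positivity)
  have hLR : LR ≤ 12 * z := by
    have e1 : ((d.size : ℝ) + 4 * l) * Real.log 2 ≤ (23 * y) * 0.7 :=
      mul_le_mul (by linarith) hl2.2 (by linarith) (by linarith)
    linarith
  have hz0 : 0 ≤ z := by linarith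
  have hLb : Real.log b ≤ 2 * z := by linarith
  -- the four terms
  have t1 : (d.size : ℝ) * (4 * Real.log 2 + Real.log b) ≤ (3 * y) * (3 * z) :=
    mul_le_mul hs3 (by linarith) (by linarith) (by linarith)
  have t1' : y * z ≤ x := by
    have : y ≤ (d : ℝ) ^ 2 := by nlinarith
    rw [hxz, mul_comm]
    exact mul_le_mul_of_nonneg_left this hz0
  have t2 : (d : ℝ) * LR ≤ d * (12 * z) := mul_le_mul_of_nonneg_left hLR (by linarith)
  have t2' : (d : ℝ) * z ≤ x := by
    rw [hxz, mul_comm]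
    exact mul_le_mul_of_nonneg_left (by nlinarith) hz0
  have t3 : 4 * (l : ℝ) * (4 * Real.log 2 + d * LR) ≤ (20 * y) * (14 * (d * z)) := by
    apply mul_le_mul (by linarith) _ _ (by linarith)
    · have : z ≤ d * z := by nlinarith
      linarith
    · have : 0 ≤ (d : ℝ) * LR := mul_nonneg (by linarith) hR0
      linarith
  have t3' : y * (d * z) ≤ x := by
    rw [hxz]
    have : y * (d : ℝ) ≤ (d : ℝ) ^ 2 := by nlinarith
    nlinarith
  have t4 : (2 : ℝ) ^ l * Real.log b ≤ 1.4 * (d : ℝ) ^ 2 + x := by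
    calc (2 : ℝ) ^ l * Real.log b ≤ 2 ^ l * (0.7 + x / 2 ^ l) :=
          mul_le_mul_of_nonneg_left hlogb hlp.le
      _ = 0.7 * 2 ^ l + x := by field_simp
      _ ≤ _ := by linarith
  have t4' : (d : ℝ) ^ 2 ≤ x := by
    rw [hxz]
    nlinarith
  have t5 : Real.log 2 ≤ x := by nlinarith
  nlinarith

theorem log_main {n : ℕ} (H : SimpleGraph (Fin n)) (hd : 2 ≤ degeneracy H) :
    Real.log (ramseyNumber H : ℝ) ≤ 1500 * (Real.log n + degeneracy H * Real.log (degeneracy H) *
      Real.log (2 + Real.log n / Real.log (degeneracy H))) := by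
  rcases le_or_gt (Real.log n)
    (2 * (degeneracy H : ℝ) ^ 2 * Real.log (16 * (degeneracy H : ℝ) ^ 2)) with h | h
  · exact log_case1 H hd h
  · have hdR : (2 : ℝ) ≤ degeneracy H := by exact_mod_cast hd
    have h1 : 0 < Real.log (degeneracy H : ℝ) := Real.log_pos (by linarith)
    have h2 : 0 ≤ Real.log (n : ℝ) := Real.log_natCast_nonneg n
    have h3 : 0 ≤ Real.log n / Real.log (degeneracy H : ℝ) := by positivity
    have h4 : 0 ≤ Real.log (2 + Real.log n / Real.log (degeneracy H : ℝ)) :=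
      Real.log_nonneg (by linarith)
    have h5 : 0 ≤ (degeneracy H : ℝ) * Real.log (degeneracy H) *
      Real.log (2 + Real.log n / Real.log (degeneracy H)) := by positivity
    linarith [log_case2 H hd h]

/-- The form `log r(H) ≤ C (log n + d log² d)`. -/
theorem log_sq {n : ℕ} (H : SimpleGraph (Fin n)) (hd : 2 ≤ degeneracy H) :
    Real.log (ramseyNumber H : ℝ) ≤ 15000 * (Real.log n +
      degeneracy H * Real.log (degeneracy H) ^ 2) := by
  have hdR : (2 : ℝ) ≤ degeneracy H := by exact_mod_cast hd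
  have h1 : 0 < Real.log (degeneracy H : ℝ) := Real.log_pos (by linarith)
  have h2 : 0 ≤ Real.log (n : ℝ) := Real.log_natCast_nonneg n
  have hl2 := log_two_bounds
  have h2y : Real.log 2 ≤ Real.log (degeneracy H : ℝ) := Real.log_le_log (by norm_num) hdR
  have h6 : 0 ≤ (degeneracy H : ℝ) * Real.log (degeneracy H) ^ 2 := by positivity
  rcases le_or_gt (Real.log n)
    (2 * (degeneracy H : ℝ) ^ 2 * Real.log (16 * (degeneracy H : ℝ) ^ 2)) with h | h
  · have h3 := log_case1 H hd h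
    have h4 : Real.log (2 + Real.log n / Real.log (degeneracy H : ℝ))
        ≤ 7 * Real.log (degeneracy H) := by
      have hlb' : Real.log (16 * (degeneracy H : ℝ) ^ 2)
          = 4 * Real.log 2 + 2 * Real.log (degeneracy H) := by
        rw [Real.log_mul (by norm_num) (by positivity), log16, Real.log_pow]
        norm_num
      rw [hlb'] at h
      have e1 : Real.log n / Real.log (degeneracy H : ℝ) ≤ 12 * (degeneracy H : ℝ) ^ 2 := by
        rw [div_le_iff₀ h1]
        have : (4 * Real.log 2 + 2 * Real.log (degeneracy H : ℝ)) ≤ 6 * Real.log (degeneracy H) := by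
          linarith
        nlinarith [sq_nonneg (degeneracy H : ℝ)]
      have e0 : (4 : ℝ) ≤ (degeneracy H : ℝ) ^ 2 := by nlinarith
      have e2 : 2 + Real.log n / Real.log (degeneracy H : ℝ) ≤ (degeneracy H : ℝ) ^ 7 := by
        have e3 : (32 : ℝ) ≤ (degeneracy H : ℝ) ^ 5 := by
          calc (32 : ℝ) = 2 ^ 5 := by norm_num
            _ ≤ _ := pow_le_pow_left₀ (by norm_num) hdR 5
        have e4 : 32 * (degeneracy H : ℝ) ^ 2 ≤ (degeneracy H : ℝ) ^ 7 := by
          calc 32 * (degeneracy H : ℝ) ^ 2 ≤ (degeneracy H : ℝ) ^ 5 * (degeneracy H : ℝ) ^ 2 :=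
                mul_le_mul_of_nonneg_right e3 (by positivity)
            _ = _ := by ring
        linarith
      have e3 : 0 ≤ Real.log n / Real.log (degeneracy H : ℝ) := by positivity
      have e4 := Real.log_le_log (by linarith) e2
      rw [Real.log_pow] at e4
      push_cast at e4
      exact e4
    have h5 : (degeneracy H : ℝ) * Real.log (degeneracy H) *
        Real.log (2 + Real.log n / Real.log (degeneracy H))
        ≤ (degeneracy H : ℝ) * Real.log (degeneracy H) * (7 * Real.log (degeneracy H)) :=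
      mul_le_mul_of_nonneg_left h4 (by positivity)
    nlinarith
  · have := log_case2 H hd h
    linarith

end Pool.Agent.Work.MP_a883af_co.Zig
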