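import Mathlib

set_option autoImplicit false
set_option linter.unusedSectionVars false

/-!
# Greedy embedding of a degenerate graph into a graph without sparse pairs
-/

namespace Pool.Agent.Work.MP_a883af_co.Zig

open Finset

variable {V W : Type} [DecidableEq V] [DecidableEq W]

open Classical in
/-- The neighbours of `x` in `Y`. -/
noncomputable def nb (G : SimpleGraph W) (Y : Finset W) (x : W) : Finset W :=
  Y.filter (fun y => G.Adj x y)

/-- The number of edges between `X` and `Y`. -/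
noncomputable def ed (G : SimpleGraph W) (X Y : Finset W) : ℕ := ∑ x ∈ X, (nb G Y x).card

theorem mem_nb {G : SimpleGraph W} {Y : Finset W} {x y : W} :
    y ∈ nb G Y x ↔ y ∈ Y ∧ G.Adj x y := by
  classical
  unfold nb; exact mem_filter

theorem nb_subset (G : SimpleGraph W) (Y : Finset W) (x : W) : nb G Y x ⊆ Y := by
  intro y hy; exact (mem_nb.1 hy).1

theorem nb_mono (G : SimpleGraph W) {Y Z : Finset W} (h : Y ⊆ Z) (x : W) :
    nb G Y x ⊆ nb G Z x := by
  intro y hy; exact mem_nb.2 ⟨h (mem_nb.1 hy).1, (mem_nb.1 hy).2⟩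

theorem ed_comm (G : SimpleGraph W) (X Y : Finset W) : ed G X Y = ed G Y X := by
  classical
  unfold ed nb
  simp only [card_filter]
  rw [sum_comm]
  refine sum_congr rfl fun y _ => sum_congr rfl fun x _ => ?_
  simp only [G.adj_comm]

open Classical in
/-- Candidates for `w` after the vertices of rank `< k` have been embedded by `φ`. -/
noncomputable def cand (H : SimpleGraph V) (G : SimpleGraph W) (π : V → ℕ) (U : Finset V)
    (L : V → Finset W) (k : ℕ) (φ : V → W) (w : V) : Finset W :=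
  (L w).filter (fun z => ∀ u ∈ U, π u < k → H.Adj u w → G.Adj (φ u) z)

theorem mem_cand {H : SimpleGraph V} {G : SimpleGraph W} {π : V → ℕ} {U : Finset V}
    {L : V → Finset W} {k : ℕ} {φ : V → W} {w : V} {z : W} :
    z ∈ cand H G π U L k φ w ↔ z ∈ L w ∧ ∀ u ∈ U, π u < k → H.Adj u w → G.Adj (φ u) z := by
  classical
  unfold cand; exact mem_filter

open Classical in
/-- The number of earlier neighbours of `w` of rank `< k`. -/
noncomputable def cnt (H : SimpleGraph V) (π : V → ℕ) (U : Finset V) (k : ℕ) (w : V) : ℕ :=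
  (U.filter (fun u => π u < k ∧ H.Adj u w)).card

theorem cnt_succ {H : SimpleGraph V} {π : V → ℕ} (hπ : Function.Injective π) {U : Finset V}
    {k : ℕ} {v : V} (hv : v ∈ U) (hvk : π v = k) {w : V} (hvw : H.Adj v w) :
    cnt H π U (k + 1) w = cnt H π U k w + 1 := by
  classical
  unfold cnt
  have : U.filter (fun u => π u < k + 1 ∧ H.Adj u w)
      = insert v (U.filter (fun u => π u < k ∧ H.Adj u w)) := by
    ext u
    simp only [mem_filter, mem_insert]
    constructor
    · rintro ⟨h1, h2, h3⟩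
      rcases Nat.lt_succ_iff_lt_or_eq.1 h2 with h | h
      · exact Or.inr ⟨h1, h, h3⟩
      · left; apply hπ; rw [h, hvk]
    · rintro (rfl | ⟨h1, h2, h3⟩)
      · exact ⟨hv, by omega, hvw⟩
      · exact ⟨h1, by omega, h3⟩
  rw [this, card_insert_of_notMem]
  intro h
  have := (mem_filter.1 h).2.1
  omega

theorem cnt_succ_of_not {H : SimpleGraph V} {π : V → ℕ} {U : Finset V}
    {k : ℕ} {w : V} (h : ∀ v ∈ U, π v = k → ¬ H.Adj v w) :
    cnt H π U (k + 1) w = cnt H π U k w := by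
  classical
  unfold cnt
  congr 1
  ext u
  simp only [mem_filter]
  constructor
  · rintro ⟨h1, h2, h3⟩
    rcases Nat.lt_succ_iff_lt_or_eq.1 h2 with h' | h'
    · exact ⟨h1, h', h3⟩
    · exact absurd h3 (h u h1 h')
  · rintro ⟨h1, h2, h3⟩
    exact ⟨h1, by omega, h3⟩

theorem cnt_le {H : SimpleGraph V} {π : V → ℕ} {U : Finset V} {m : ℕ}
    (hm : ∀ v ∈ U, cnt H π U (π v) v ≤ m) {k : ℕ} {w : V} (hw : w ∈ U) (hk : k ≤ π w) :
    cnt H π U k w ≤ m := by
  classical
  refine le_trans ?_ (hm w hw)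
  unfold cnt
  apply card_le_card
  intro u hu
  simp only [mem_filter] at hu ⊢
  exact ⟨hu.1, lt_of_lt_of_le hu.2.1 hk, hu.2.2⟩

/-- The state of the greedy embedding. -/
def Inv (H : SimpleGraph V) (G : SimpleGraph W) (π : V → ℕ) (U : Finset V) (S : Finset W)
    (L : V → Finset W) (ρ : ℝ) (k : ℕ) (φ : V → W) : Prop :=
  (∀ v ∈ U, π v < k → φ v ∈ L v) ∧
  (∀ u ∈ U, ∀ v ∈ U, π u < k → π v < k → φ u = φ v → u = v) ∧
  (∀ u ∈ U, ∀ v ∈ U, π u < k → π v < k → H.Adj u v → G.Adj (φ u) (φ v)) ∧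
  (∀ w ∈ U, k ≤ π w → ρ ^ (cnt H π U k w) * S.card ≤ 2 * ((cand H G π U L k φ w).card : ℝ))

theorem bad_card (G : SimpleGraph W) (S : Finset W) (D m : ℕ) (hD1 : 1 ≤ D) (ρ : ℝ)
    (hρ0 : 0 < ρ) (hS : (8 * D : ℝ) ≤ S.card * ρ ^ m)
    (hno : ∀ X Y : Finset W, X ⊆ S → Y ⊆ S → Disjoint X Y →
       ρ ^ m * S.card ≤ 8 * D * X.card → ρ ^ m * S.card ≤ 8 * D * Y.card →
       2 * ρ * X.card * Y.card ≤ ed G X Y)
    (C E : Finset W) (hC : C ⊆ S) (hE : E ⊆ S) (hEc : ρ ^ m * S.card ≤ 2 * (E.card : ℝ))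
    (hbad : ∀ y ∈ C, ((nb G E y).card : ℝ) < ρ * E.card) :
    (C.card : ℝ) ≤ ρ ^ m * S.card / (8 * D) + 1 := by
  by_contra hcon
  push Not at hcon
  have hDR : (1 : ℝ) ≤ D := by exact_mod_cast hD1
  obtain ⟨q, hq⟩ : ∃ q : ℝ, q = ρ ^ m * S.card / (8 * D) := ⟨_, rfl⟩
  rw [← hq] at hcon
  have hqe : ρ ^ m * S.card = 8 * D * q := by rw [hq]; field_simp
  have hq1 : 1 ≤ q := by
    rw [hq, le_div_iff₀ (by positivity)]
    linarith [hS, mul_comm (ρ ^ m) (S.card : ℝ)]
  have hceil1 : q ≤ (⌈q⌉₊ : ℝ) := Nat.le_ceil q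
  have hceil2 : (⌈q⌉₊ : ℝ) < q + 1 := Nat.ceil_lt_add_one (by linarith)
  have hle : ⌈q⌉₊ ≤ C.card := by
    have : (⌈q⌉₊ : ℝ) ≤ C.card := by linarith
    exact_mod_cast this
  obtain ⟨X, hXC, hXc⟩ := exists_subset_card_eq hle
  have hXR : (X.card : ℝ) = (⌈q⌉₊ : ℝ) := by rw [hXc]
  have hDq : 4 * D * q ≤ (E.card : ℝ) := by rw [hqe] at hEc; linarith
  have hsd : (E.card : ℝ) ≤ ((E \ X).card : ℝ) + X.card := by
    have := card_le_card_sdiff_add_card (s := E) (t := X)
    exact_mod_cast this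
  have hD4 : 4 * q ≤ (E.card : ℝ) := by nlinarith
  have hY2 : (E.card : ℝ) ≤ 2 * ((E \ X).card : ℝ) := by linarith
  have h1 := hno X (E \ X) (hXC.trans hC) (sdiff_subset.trans hE) disjoint_sdiff
    (by rw [hqe, hXR]; nlinarith) (by rw [hqe]; nlinarith)
  have h2 : (ed G X (E \ X) : ℝ) < X.card * (ρ * E.card) := by
    unfold ed
    push_cast
    have hXne : X.Nonempty := by
      rw [← card_pos, hXc]
      exact Nat.ceil_pos.2 (by linarith)
    calc (∑ x ∈ X, ((nb G (E \ X) x).card : ℝ)) < ∑ _x ∈ X, ρ * (E.card : ℝ) := by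
          apply sum_lt_sum_of_nonempty hXne
          intro x hx
          refine lt_of_le_of_lt ?_ (hbad x (hXC hx))
          exact_mod_cast card_le_card (nb_mono G sdiff_subset x)
      _ = X.card * (ρ * E.card) := by rw [sum_const, nsmul_eq_mul]
  have h3 : (X.card : ℝ) * (ρ * E.card) ≤ 2 * ρ * X.card * ((E \ X).card : ℝ) := by
    have : (X.card : ℝ) * ρ * E.card ≤ X.card * ρ * (2 * ((E \ X).card : ℝ)) :=
      mul_le_mul_of_nonneg_left hY2 (mul_nonneg (Nat.cast_nonneg _) hρ0.le)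
    linarith
  linarith

theorem step (H : SimpleGraph V) (G : SimpleGraph W) (π : V → ℕ) (hπ : Function.Injective π)
    (U : Finset V) (S : Finset W) (n D m : ℕ) (hn : U.card ≤ n) (hD1 : 1 ≤ D)
    (hD : ∀ v ∈ U, (nb H U v).card ≤ D) (ρ : ℝ) (hρ0 : 0 < ρ)
    (hρ1 : ρ ≤ 1)
    (hm : ∀ v ∈ U, cnt H π U (π v) v ≤ m)
    (hS : (8 * n : ℝ) ≤ S.card * ρ ^ m) (hSD : (8 * D : ℝ) ≤ S.card * ρ ^ m)
    (hno : ∀ X Y : Finset W, X ⊆ S → Y ⊆ S → Disjoint X Y →
       ρ ^ m * S.card ≤ 8 * D * X.card → ρ ^ m * S.card ≤ 8 * D * Y.card →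
       2 * ρ * X.card * Y.card ≤ ed G X Y)
    (L : V → Finset W) (hL : ∀ v ∈ U, L v ⊆ S) (k : ℕ) (φ : V → W)
    (hI : Inv H G π U S L ρ k φ) :
    ∃ φ' : V → W, Inv H G π U S L ρ (k + 1) φ' := by
  classical
  obtain ⟨h1, h2, h3, h4⟩ := hI
  by_cases hex : ∃ v ∈ U, π v = k
  swap
  · push Not at hex
    have hlt : ∀ u ∈ U, π u < k + 1 → π u < k := fun u hu h => by
      have := hex u hu; omega
    refine ⟨φ, fun v hv hk => h1 v hv (hlt v hv hk),
      fun u hu v hv hku hkv => h2 u hu v hv (hlt u hu hku) (hlt v hv hkv),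
      fun u hu v hv hku hkv => h3 u hu v hv (hlt u hu hku) (hlt v hv hkv), fun w hw hk => ?_⟩
    rw [cnt_succ_of_not (fun v hv hvk => absurd hvk (hex v hv))]
    refine (h4 w hw (by omega)).trans ?_
    have : cand H G π U L k φ w ⊆ cand H G π U L (k + 1) φ w := by
      intro z hz
      rw [mem_cand] at hz ⊢
      exact ⟨hz.1, fun u hu hku => hz.2 u hu (hlt u hu hku)⟩
    have := card_le_card this
    have : ((cand H G π U L k φ w).card : ℝ) ≤ (cand H G π U L (k + 1) φ w).card := by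
      exact_mod_cast this
    linarith
  obtain ⟨v, hv, hvk⟩ := hex
  have hDR : (1 : ℝ) ≤ D := by exact_mod_cast hD1
  have hcandS : ∀ w ∈ U, cand H G π U L k φ w ⊆ S := fun w hw z hz =>
    hL w hw (mem_cand.1 hz).1
  have hpow : ∀ t : ℕ, t ≤ m → ρ ^ m ≤ ρ ^ t := fun t ht =>
    pow_le_pow_of_le_one hρ0.le hρ1 ht
  have hcm : ∀ w ∈ U, k ≤ π w → ρ ^ m * S.card ≤ 2 * ((cand H G π U L k φ w).card : ℝ) := by
    intro w hw hk
    refine le_trans ?_ (h4 w hw hk)
    exact mul_le_mul_of_nonneg_right (hpow _ (cnt_le hm hw hk)) (Nat.cast_nonneg _)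
  obtain ⟨q, hq⟩ : ∃ q : ℝ, q = ρ ^ m * S.card / (8 * D) := ⟨_, rfl⟩
  have hqe : ρ ^ m * S.card = 8 * D * q := by rw [hq]; field_simp
  have hq1 : 1 ≤ q := by
    rw [hq, le_div_iff₀ (by positivity)]
    linarith [hSD, mul_comm (ρ ^ m) (S.card : ℝ)]
  -- forbidden sets
  let bad : V → Finset W := fun w => if π w < k then ∅ else
    (cand H G π U L k φ v).filter (fun y =>
      ((nb G (cand H G π U L k φ w) y).card : ℝ) < ρ * (cand H G π U L k φ w).card)
  let Z : Finset W := (U.filter (fun u => π u < k)).image φ ∪ (nb H U v).biUnion bad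
  have hz : ∀ u ∈ nb H U v, ((bad u).card : ℝ) ≤ q + 1 := by
    intro u hu
    have huU := (mem_nb.1 hu).1
    simp only [bad]
    split_ifs with ha
    · rw [card_empty]; push_cast; linarith
    · rw [hq]
      exact bad_card G S D m hD1 ρ hρ0 hSD hno _ (cand H G π U L k φ u)
        ((filter_subset _ _).trans (hcandS v hv)) (hcandS u huU) (hcm u huU (by omega))
        (fun y hy => (mem_filter.1 hy).2)
  have hsum : (Z.card : ℝ) < (cand H G π U L k φ v).card := by
    have e0 : (Z.card : ℝ) ≤ (((U.filter (fun u => π u < k)).image φ).card : ℝ)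
        + ((nb H U v).biUnion bad).card := by
      exact_mod_cast card_union_le _ _
    have e0' : (((U.filter (fun u => π u < k)).image φ).card : ℝ) ≤ n := by
      exact_mod_cast (card_image_le.trans (card_filter_le _ _)).trans hn
    have e1 : (((nb H U v).biUnion bad).card : ℝ) ≤ ∑ u ∈ nb H U v, ((bad u).card : ℝ) := by
      exact_mod_cast card_biUnion_le
    have e2 : ∑ u ∈ nb H U v, ((bad u).card : ℝ) ≤ ∑ _u ∈ nb H U v, (q + 1) := sum_le_sum hz
    rw [sum_const, nsmul_eq_mul] at e2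
    have e3 : ((nb H U v).card : ℝ) ≤ D := by exact_mod_cast hD v hv
    have e4 : ((nb H U v).card : ℝ) * (q + 1) ≤ D * (q + 1) :=
      mul_le_mul_of_nonneg_right e3 (by linarith)
    have e5 := hcm v hv hvk.ge
    rw [hqe] at e5
    have e6 : (n : ℝ) ≤ D * q := by linarith [mul_comm (ρ ^ m) (S.card : ℝ)]
    have e7 : (D : ℝ) ≤ D * q := by nlinarith
    nlinarith
  obtain ⟨y, hyC, hyz⟩ : ∃ y ∈ cand H G π U L k φ v, y ∉ Z := by
    by_contra hcon
    push Not at hcon
    have : (cand H G π U L k φ v).card ≤ Z.card :=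
      card_le_card (fun y hy => hcon y hy)
    have : ((cand H G π U L k φ v).card : ℝ) ≤ Z.card := by exact_mod_cast this
    linarith
  have hyφ : ∀ u ∈ U, π u < k → φ u ≠ y := by
    intro u hu hk he
    apply hyz
    exact mem_union_left _ (mem_image.2 ⟨u, mem_filter.2 ⟨hu, hk⟩, he⟩)
  have hygood : ∀ w ∈ U, k < π w → H.Adj v w →
      ρ * (cand H G π U L k φ w).card ≤ ((nb G (cand H G π U L k φ w) y).card : ℝ) := by
    intro w hw hk hvw
    by_contra hcon
    push Not at hcon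
    apply hyz
    refine mem_union_right _ (mem_biUnion.2 ⟨w, mem_nb.2 ⟨hw, hvw⟩, ?_⟩)
    simp only [bad, if_neg (show ¬ π w < k by omega)]
    exact mem_filter.2 ⟨hyC, hcon⟩
  rw [mem_cand] at hyC
  have hφne : ∀ u, u ≠ v → Function.update φ v y u = φ u := fun u hu =>
    Function.update_of_ne hu _ _
  have hφv : Function.update φ v y v = y := Function.update_self _ _ _
  have hcase : ∀ u ∈ U, π u < k + 1 → u = v ∨ (u ≠ v ∧ π u < k) := by
    intro u hu hk
    rcases Nat.lt_succ_iff_lt_or_eq.1 hk with h | h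
    · right
      refine ⟨?_, h⟩
      rintro rfl; omega
    · left; apply hπ; rw [h, hvk]
  refine ⟨Function.update φ v y, ?_, ?_, ?_, ?_⟩
  · intro u hu hk
    rcases hcase u hu hk with rfl | ⟨hne, hk'⟩
    · rw [hφv]; exact hyC.1
    · rw [hφne u hne]; exact h1 u hu hk'
  · intro u hu w hw hku hkw he
    rcases hcase u hu hku with rfl | ⟨hne, hk'⟩
    · rcases hcase w hw hkw with rfl | ⟨hne', hk''⟩
      · rfl
      · rw [hφv, hφne w hne'] at he
        exact absurd he.symm (hyφ w hw hk'')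
    · rcases hcase w hw hkw with rfl | ⟨hne', hk''⟩
      · rw [hφv, hφne u hne] at he
        exact absurd he (hyφ u hu hk')
      · rw [hφne u hne, hφne w hne'] at he
        exact h2 u hu w hw hk' hk'' he
  · intro u hu w hw hku hkw ha
    rcases hcase u hu hku with rfl | ⟨hne, hk'⟩
    · rcases hcase w hw hkw with rfl | ⟨hne', hk''⟩
      · exact absurd rfl ha.ne
      · rw [hφv, hφne w hne']
        exact (hyC.2 w hw hk'' ha.symm).symm
    · rcases hcase w hw hkw with rfl | ⟨hne', hk''⟩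
      · rw [hφv, hφne u hne]
        exact hyC.2 u hu hk' ha
      · rw [hφne u hne, hφne w hne']
        exact h3 u hu w hw hk' hk'' ha
  · intro w hw hk
    by_cases hvw : H.Adj v w
    · rw [cnt_succ hπ hv hvk hvw]
      have hsub : nb G (cand H G π U L k φ w) y
          ⊆ cand H G π U L (k + 1) (Function.update φ v y) w := by
        intro x hx
        rw [mem_nb, mem_cand] at hx
        rw [mem_cand]
        refine ⟨hx.1.1, fun u hu hku hua => ?_⟩
        rcases hcase u hu hku with rfl | ⟨hne, hk'⟩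
        · rw [hφv]; exact hx.2
        · rw [hφne u hne]; exact hx.1.2 u hu hk' hua
      have e1 : ((nb G (cand H G π U L k φ w) y).card : ℝ)
          ≤ (cand H G π U L (k + 1) (Function.update φ v y) w).card := by
        exact_mod_cast card_le_card hsub
      have e2 := hygood w hw (by omega) hvw
      have e3 := h4 w hw (by omega)
      calc ρ ^ (cnt H π U k w + 1) * S.card = ρ * (ρ ^ (cnt H π U k w) * S.card) := by ring
        _ ≤ ρ * (2 * ((cand H G π U L k φ w).card : ℝ)) := mul_le_mul_of_nonneg_left e3 hρ0.le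
        _ = 2 * (ρ * (cand H G π U L k φ w).card) := by ring
        _ ≤ 2 * ((nb G (cand H G π U L k φ w) y).card : ℝ) := by linarith
        _ ≤ _ := by linarith
    · have hnot : ∀ u ∈ U, π u = k → ¬ H.Adj u w := by
        intro u hu huk
        have : u = v := by apply hπ; rw [huk, hvk]
        rw [this]; exact hvw
      rw [cnt_succ_of_not hnot]
      refine (h4 w hw (by omega)).trans ?_
      have hsub : cand H G π U L k φ w
          ⊆ cand H G π U L (k + 1) (Function.update φ v y) w := by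
        intro x hx
        rw [mem_cand] at hx ⊢
        refine ⟨hx.1, fun u hu hku hua => ?_⟩
        rcases hcase u hu hku with rfl | ⟨hne, hk'⟩
        · exact absurd hua hvw
        · rw [hφne u hne]; exact hx.2 u hu hk' hua
      have e1 : ((cand H G π U L k φ w).card : ℝ)
          ≤ (cand H G π U L (k + 1) (Function.update φ v y) w).card := by
        exact_mod_cast card_le_card hsub
      linarith

theorem greedy [Nonempty W] (H : SimpleGraph V) (G : SimpleGraph W) (π : V → ℕ)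
    (hπ : Function.Injective π)
    (U : Finset V) (S : Finset W) (n D m : ℕ) (hn : U.card ≤ n) (hD1 : 1 ≤ D)
    (hD : ∀ v ∈ U, (nb H U v).card ≤ D) (ρ : ℝ) (hρ0 : 0 < ρ)
    (hρ1 : ρ ≤ 1)
    (hm : ∀ v ∈ U, cnt H π U (π v) v ≤ m)
    (hS : (8 * n : ℝ) ≤ S.card * ρ ^ m) (hSD : (8 * D : ℝ) ≤ S.card * ρ ^ m)
    (hno : ∀ X Y : Finset W, X ⊆ S → Y ⊆ S → Disjoint X Y →
       ρ ^ m * S.card ≤ 8 * D * X.card → ρ ^ m * S.card ≤ 8 * D * Y.card →
       2 * ρ * X.card * Y.card ≤ ed G X Y)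
    (L : V → Finset W) (hL : ∀ v ∈ U, L v ⊆ S ∧ (S.card : ℝ) ≤ 2 * (L v).card) :
    ∃ φ : V → W, (∀ v ∈ U, φ v ∈ L v) ∧ Set.InjOn φ U ∧
      ∀ u ∈ U, ∀ v ∈ U, H.Adj u v → G.Adj (φ u) (φ v) := by
  classical
  have key : ∀ k : ℕ, ∃ φ : V → W, Inv H G π U S L ρ k φ := by
    intro k
    induction k with
    | zero =>
      refine ⟨fun _ => Classical.arbitrary W, fun v _ h => absurd h (by omega),
        fun u _ v _ h => absurd h (by omega), fun u _ v _ h => absurd h (by omega), ?_⟩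
      intro w hw _
      have e1 : cnt H π U 0 w = 0 := by
        unfold cnt
        rw [card_eq_zero, filter_eq_empty_iff]
        intro u _ h
        exact absurd h.1 (by omega)
      have e2 : cand H G π U L 0 (fun _ => Classical.arbitrary W) w = L w := by
        ext z
        rw [mem_cand]
        constructor
        · intro h; exact h.1
        · intro h; exact ⟨h, fun u _ h => absurd h (by omega)⟩
      rw [e1, e2, pow_zero, one_mul]
      exact (hL w hw).2
    | succ k ih =>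
      obtain ⟨φ, hφ⟩ := ih
      exact step H G π hπ U S n D m hn hD1 hD ρ hρ0 hρ1 hm hS hSD hno L
        (fun v hv => (hL v hv).1) k φ hφ
  obtain ⟨φ, h1, h2, h3, -⟩ := key (U.sup π + 1)
  have hlt : ∀ u ∈ U, π u < U.sup π + 1 := fun u hu => Nat.lt_succ_of_le (le_sup (f := π) hu)
  exact ⟨φ, fun v hv => h1 v hv (hlt v hv),
    fun u hu v hv h => h2 u hu v hv (hlt u hu) (hlt v hv) h,
    fun u hu v hv h => h3 u hu v hv (hlt u hu) (hlt v hv) h⟩

end Pool.Agent.Work.MP_a883af_co.Zig
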