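import Pool.Agent.Work.MP_a883af_co.ZigGreedy

set_option autoImplicit false
set_option linter.unusedSectionVars false

/-!
# Flexible embeddings, joining two flexible embeddings, and the zigzag induction
-/

namespace Pool.Agent.Work.MP_a883af_co.Zig

open Finset

variable {V W : Type} [DecidableEq V] [DecidableEq W]

/-- `H[U]` embeds into `G[S]` with lists: there are pools inside `S`, at most `K` different ones,
such that lists which miss at most a `θ` fraction of the pools are always enough. -/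
def Flex (H : SimpleGraph V) (G : SimpleGraph W) (U : Finset V) (S : Finset W) (θ : ℝ) (K : ℕ) :
    Prop :=
  ∃ P : V → Finset W, (∀ v ∈ U, P v ⊆ S) ∧ (U.image P).card ≤ K ∧
    ∀ L : V → Finset W, (∀ v ∈ U, L v ⊆ P v ∧ (1 - θ) * ((P v).card : ℝ) ≤ (L v).card) →
      ∃ φ : V → W, (∀ v ∈ U, φ v ∈ L v) ∧ Set.InjOn φ U ∧
        ∀ u ∈ U, ∀ v ∈ U, H.Adj u v → G.Adj (φ u) (φ v)

theorem Flex.mono {H : SimpleGraph V} {G : SimpleGraph W} {U : Finset V} {S S' : Finset W}
    {θ θ' : ℝ} {K K' : ℕ} (h : Flex H G U S θ K) (hS : S ⊆ S') (hθ : θ' ≤ θ) (hK : K ≤ K') :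
    Flex H G U S' θ' K' := by
  obtain ⟨P, h1, h2, h3⟩ := h
  refine ⟨P, fun v hv => (h1 v hv).trans hS, h2.trans hK, fun L hL => h3 L fun v hv => ?_⟩
  refine ⟨(hL v hv).1, le_trans ?_ (hL v hv).2⟩
  exact mul_le_mul_of_nonneg_right (by linarith) (Nat.cast_nonneg _)

/-- The vertices of `A` with few neighbours in every set of a family. -/
theorem clean (G : SimpleGraph W) (A B : Finset W) (τ : ℝ) (hτ : 0 < τ) (K : ℕ) (hK : 0 < K)
    (hAB : ∀ b ∈ B, ((nb G A b).card : ℝ) ≤ τ * A.card)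
    (𝒬 : Finset (Finset W)) (h𝒬 : ∀ Q ∈ 𝒬, Q ⊆ B) (h𝒬K : 𝒬.card ≤ K) :
    ∃ A₀ ⊆ A, (A.card : ℝ) ≤ 2 * A₀.card ∧
      ∀ a ∈ A₀, ∀ Q ∈ 𝒬, ((nb G Q a).card : ℝ) ≤ 2 * K * τ * Q.card := by
  classical
  let bad : Finset W → Finset W := fun Q =>
    A.filter (fun a => 2 * K * τ * (Q.card : ℝ) < (nb G Q a).card)
  have hKR : (0 : ℝ) < K := by exact_mod_cast hK
  have hbad : ∀ Q ∈ 𝒬, 2 * K * ((bad Q).card : ℝ) ≤ A.card := by
    intro Q hQ
    rcases Q.eq_empty_or_nonempty with rfl | hne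
    · have : bad ∅ = ∅ := by
        simp only [bad]
        rw [filter_eq_empty_iff]
        intro a _ h
        have h0 : (nb G ∅ a) = ∅ := subset_empty.1 (nb_subset G ∅ a)
        rw [h0] at h
        simp at h
      rw [this]
      simp
    · have hQpos : (0 : ℝ) < Q.card := by exact_mod_cast card_pos.2 hne
      have e1 : (ed G A Q : ℝ) ≤ Q.card * (τ * A.card) := by
        rw [ed_comm]
        unfold ed
        push_cast
        calc (∑ b ∈ Q, ((nb G A b).card : ℝ)) ≤ ∑ _b ∈ Q, τ * (A.card : ℝ) :=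
              sum_le_sum fun b hb => hAB b (h𝒬 Q hQ hb)
          _ = _ := by rw [sum_const, nsmul_eq_mul]
      have e2 : ((bad Q).card : ℝ) * (2 * K * τ * Q.card) ≤ ed G A Q := by
        unfold ed
        push_cast
        calc ((bad Q).card : ℝ) * (2 * K * τ * Q.card) = ∑ _a ∈ bad Q, 2 * K * τ * (Q.card : ℝ) := by
              rw [sum_const, nsmul_eq_mul]
          _ ≤ ∑ a ∈ bad Q, ((nb G Q a).card : ℝ) :=
              sum_le_sum fun a ha => (mem_filter.1 ha).2.le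
          _ ≤ ∑ a ∈ A, ((nb G Q a).card : ℝ) :=
              sum_le_sum_of_subset_of_nonneg (filter_subset _ _) fun _ _ _ => Nat.cast_nonneg _
      have e3 : (τ * Q.card) * (2 * K * ((bad Q).card : ℝ)) ≤ (τ * Q.card) * A.card := by
        nlinarith
      exact le_of_mul_le_mul_left e3 (by positivity)
  refine ⟨A \ 𝒬.biUnion bad, sdiff_subset, ?_, ?_⟩
  · have e1 : (((𝒬.biUnion bad).card : ℕ) : ℝ) ≤ ∑ Q ∈ 𝒬, ((bad Q).card : ℝ) := by
      exact_mod_cast card_biUnion_le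
    have e2 : 2 * K * ∑ Q ∈ 𝒬, ((bad Q).card : ℝ) ≤ K * A.card := by
      rw [mul_sum]
      calc ∑ Q ∈ 𝒬, 2 * K * ((bad Q).card : ℝ) ≤ ∑ _Q ∈ 𝒬, (A.card : ℝ) := sum_le_sum hbad
        _ = 𝒬.card * A.card := by rw [sum_const, nsmul_eq_mul]
        _ ≤ K * A.card := by
            apply mul_le_mul_of_nonneg_right _ (Nat.cast_nonneg _)
            exact_mod_cast h𝒬K
    have e3 : (K : ℝ) * (2 * (((𝒬.biUnion bad).card : ℕ) : ℝ)) ≤ K * A.card := by nlinarith
    have e4 := le_of_mul_le_mul_left e3 hKR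
    have e5 : (A.card : ℝ) ≤ ((A \ 𝒬.biUnion bad).card : ℝ) + (𝒬.biUnion bad).card := by
      have := card_le_card_sdiff_add_card (s := A) (t := 𝒬.biUnion bad)
      exact_mod_cast this
    linarith
  · intro a ha Q hQ
    obtain ⟨haA, hab⟩ := mem_sdiff.1 ha
    by_contra hcon
    push Not at hcon
    exact hab (mem_biUnion.2 ⟨Q, hQ, mem_filter.2 ⟨haA, hcon⟩⟩)

/-- Joining: `U'` is embedded in `A₀`, `U''` in `B₀`. -/
theorem join (H : SimpleGraph V) (G : SimpleGraph W) (U U' U'' : Finset V) (hU : U = U' ∪ U'')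
    (hdisj : Disjoint U' U'') (T : ℕ) (A₀ B₀ S : Finset W) (hA : A₀ ⊆ S) (hB : B₀ ⊆ S)
    (hAB : Disjoint A₀ B₀) (θ η ζ : ℝ) (hη : 0 ≤ η) (hζ : T * ζ ≤ η) (hζ0 : 0 ≤ ζ) (K' K'' : ℕ)
    (hT : ∀ y ∈ U'', (nb H U' y).card ≤ T)
    (P : V → Finset W) (hP1 : ∀ v ∈ U'', P v ⊆ B₀) (hP2 : (U''.image P).card ≤ K'')
    (hP3 : ∀ L : V → Finset W, (∀ v ∈ U'', L v ⊆ P v ∧ (1 - θ) * ((P v).card : ℝ) ≤ (L v).card) →
      ∃ φ : V → W, (∀ v ∈ U'', φ v ∈ L v) ∧ Set.InjOn φ U'' ∧
        ∀ u ∈ U'', ∀ v ∈ U'', H.Adj u v → G.Adj (φ u) (φ v))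
    (hclean : ∀ a ∈ A₀, ∀ Q ∈ U''.image P, ((nb Gᶜ Q a).card : ℝ) ≤ ζ * Q.card)
    (hF : Flex H G U' A₀ θ K') :
    Flex H G U S (θ - η) (K' + K'') := by
  classical
  obtain ⟨P', h1, h2, h3⟩ := hF
  let R : V → Finset W := fun v => if v ∈ U' then P' v else P v
  have hR' : ∀ v ∈ U', R v = P' v := fun v hv => if_pos hv
  have hnot : ∀ v ∈ U'', v ∉ U' := fun v hv h => disjoint_left.1 hdisj h hv
  have hR'' : ∀ v ∈ U'', R v = P v := fun v hv => if_neg (hnot v hv)
  subst hU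
  refine ⟨R, ?_, ?_, ?_⟩
  · intro v hv
    rcases mem_union.1 hv with h | h
    · rw [hR' v h]; exact (h1 v h).trans hA
    · rw [hR'' v h]; exact (hP1 v h).trans hB
  · have : (U' ∪ U'').image R ⊆ U'.image P' ∪ U''.image P := by
      intro Q hQ
      obtain ⟨v, hv, rfl⟩ := mem_image.1 hQ
      rcases mem_union.1 hv with h | h
      · rw [hR' v h]; exact mem_union_left _ (mem_image_of_mem _ h)
      · rw [hR'' v h]; exact mem_union_right _ (mem_image_of_mem _ h)
    calc ((U' ∪ U'').image R).card ≤ (U'.image P' ∪ U''.image P).card := card_le_card this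
      _ ≤ (U'.image P').card + (U''.image P).card := card_union_le _ _
      _ ≤ K' + K'' := by omega
  · intro L hL
    obtain ⟨φ', a1, a2, a3⟩ := h3 L (by
      intro v hv
      have := hL v (mem_union_left _ hv)
      rw [hR' v hv] at this
      refine ⟨this.1, le_trans ?_ this.2⟩
      exact mul_le_mul_of_nonneg_right (by linarith) (Nat.cast_nonneg _))
    have a4 : ∀ v ∈ U', φ' v ∈ A₀ := by
      intro v hv
      have := hL v (mem_union_left _ hv)
      rw [hR' v hv] at this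
      exact h1 v hv (this.1 (a1 v hv))
    let L'' : V → Finset W := fun y =>
      (L y).filter (fun z => ∀ x ∈ U', H.Adj y x → G.Adj (φ' x) z)
    have hLy : ∀ y ∈ U'', L y ⊆ P y ∧ (1 - (θ - η)) * ((P y).card : ℝ) ≤ (L y).card := by
      intro y hy
      have := hL y (mem_union_right _ hy)
      rwa [hR'' y hy] at this
    obtain ⟨φ'', b1, b2, b3⟩ := hP3 L'' (by
      intro y hy
      obtain ⟨c1, c2⟩ := hLy y hy
      refine ⟨(filter_subset _ _).trans c1, ?_⟩
      have hsub : L y ⊆ L'' y ∪ (nb H U' y).biUnion (fun x => nb Gᶜ (P y) (φ' x)) := by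
        intro z hz
        by_cases hz' : z ∈ L'' y
        · exact mem_union_left _ hz'
        · apply mem_union_right
          have : ¬ ∀ x ∈ U', H.Adj y x → G.Adj (φ' x) z := fun h => hz' (mem_filter.2 ⟨hz, h⟩)
          push Not at this
          obtain ⟨x, hx, hyx, hnadj⟩ := this
          refine mem_biUnion.2 ⟨x, mem_nb.2 ⟨hx, hyx⟩, mem_nb.2 ⟨c1 hz, ?_⟩⟩
          rw [SimpleGraph.compl_adj]
          refine ⟨?_, hnadj⟩
          rintro he
          exact disjoint_left.1 hAB (a4 x hx) (he ▸ hP1 y hy (c1 hz))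
      have e1 : ((L y).card : ℝ) ≤ (L'' y).card
          + ∑ x ∈ nb H U' y, ((nb Gᶜ (P y) (φ' x)).card : ℝ) := by
        have := (card_le_card hsub).trans (card_union_le _ _)
        have h' := card_biUnion_le (s := nb H U' y) (t := fun x => nb Gᶜ (P y) (φ' x))
        exact_mod_cast this.trans (Nat.add_le_add_left h' _)
      have e2 : ∑ x ∈ nb H U' y, ((nb Gᶜ (P y) (φ' x)).card : ℝ)
          ≤ ∑ _x ∈ nb H U' y, ζ * ((P y).card : ℝ) :=
        sum_le_sum fun x hx =>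
          hclean _ (a4 x (mem_nb.1 hx).1) _ (mem_image_of_mem _ hy)
      rw [sum_const, nsmul_eq_mul] at e2
      have e3 : ((nb H U' y).card : ℝ) * (ζ * (P y).card) ≤ T * (ζ * (P y).card) := by
        apply mul_le_mul_of_nonneg_right _ (mul_nonneg hζ0 (Nat.cast_nonneg _))
        exact_mod_cast hT y hy
      have e4 : (T : ℝ) * (ζ * (P y).card) ≤ η * (P y).card := by
        rw [← mul_assoc]
        exact mul_le_mul_of_nonneg_right hζ (Nat.cast_nonneg _)
      linarith)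
    have b4 : ∀ y ∈ U'', φ'' y ∈ L y := fun y hy => (mem_filter.1 (b1 y hy)).1
    have b5 : ∀ y ∈ U'', φ'' y ∈ B₀ := fun y hy => hP1 y hy ((hLy y hy).1 (b4 y hy))
    have b6 : ∀ y ∈ U'', ∀ x ∈ U', H.Adj y x → G.Adj (φ' x) (φ'' y) := fun y hy =>
      (mem_filter.1 (b1 y hy)).2
    let φ : V → W := fun v => if v ∈ U' then φ' v else φ'' v
    have hφ' : ∀ v ∈ U', φ v = φ' v := fun v hv => if_pos hv
    have hφ'' : ∀ v ∈ U'', φ v = φ'' v := fun v hv => if_neg (hnot v hv)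
    refine ⟨φ, ?_, ?_, ?_⟩
    · intro v hv
      rcases mem_union.1 hv with h | h
      · rw [hφ' v h]; exact a1 v h
      · rw [hφ'' v h]; exact b4 v h
    · intro u hu v hv he
      rcases mem_union.1 hu with h | h <;> rcases mem_union.1 hv with h' | h'
      · rw [hφ' u h, hφ' v h'] at he
        exact a2 h h' he
      · rw [hφ' u h, hφ'' v h'] at he
        exact absurd (he ▸ a4 u h) (fun hh => disjoint_left.1 hAB hh (b5 v h'))
      · rw [hφ'' u h, hφ' v h'] at he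
        exact absurd (he ▸ b5 u h) (fun hh => disjoint_left.1 hAB (a4 v h') hh)
      · rw [hφ'' u h, hφ'' v h'] at he
        exact b2 h h' he
    · intro u hu v hv ha
      rcases mem_union.1 hu with h | h <;> rcases mem_union.1 hv with h' | h'
      · rw [hφ' u h, hφ' v h']; exact a3 u h v h' ha
      · rw [hφ' u h, hφ'' v h']; exact b6 v h' u h ha.symm
      · rw [hφ'' u h, hφ' v h']; exact (b6 u h v h' ha).symm
      · rw [hφ'' u h, hφ'' v h']; exact b3 u h v h' ha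

/-- A decomposition tree of `H[U]` of height `h` and cost `c`. The cost of a node with
degeneracy `a` and maximum degree `D` is `log (16 D) + a r`. -/
def Dec (H : SimpleGraph V) (π : V → ℕ) (T : ℕ) (r : ℝ) : ℕ → ℝ → Finset V → Prop
  | 0, c, U => 0 ≤ c ∧ ∀ u ∈ U, ∀ v ∈ U, ¬ H.Adj u v
  | h + 1, c, U => ∃ (a D : ℕ) (c' : ℝ) (U' U'' : Finset V), 1 ≤ D ∧
      Real.log (16 * D) + a * r + c' ≤ c ∧ U = U' ∪ U'' ∧
      Disjoint U' U'' ∧ (∀ v ∈ U, cnt H π U (π v) v ≤ a) ∧ (∀ v ∈ U, (nb H U v).card ≤ D) ∧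
      (∀ y ∈ U'', (nb H U' y).card ≤ T) ∧ Dec H π T r h c' U' ∧ Dec H π T r h c' U''

theorem log16_nonneg {D : ℕ} (hD : 1 ≤ D) : 0 ≤ Real.log (16 * D) := by
  have : (1 : ℝ) ≤ D := by exact_mod_cast hD
  exact Real.log_nonneg (by linarith)

theorem Dec.nonneg {H : SimpleGraph V} {π : V → ℕ} {T : ℕ} {r : ℝ} (hr : 0 ≤ r) :
    ∀ {h : ℕ} {c : ℝ} {U : Finset V}, Dec H π T r h c U → 0 ≤ c
  | 0, _, _, hd => hd.1
  | _ + 1, _, _, ⟨a, _, _, _, _, hD, hc, _, _, _, _, _, h1, _⟩ => by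
    have h2 := Dec.nonneg hr h1
    have h3 := log16_nonneg hD
    have h4 : 0 ≤ (a : ℝ) * r := mul_nonneg (Nat.cast_nonneg a) hr
    linarith

theorem Dec.mono {H : SimpleGraph V} {π : V → ℕ} {T : ℕ} {r : ℝ} {h : ℕ} {c c₂ : ℝ}
    {U : Finset V} (hd : Dec H π T r h c U) (hc : c ≤ c₂) : Dec H π T r h c₂ U := by
  cases h with
  | zero => exact ⟨hd.1.trans hc, hd.2⟩
  | succ h =>
    obtain ⟨a, D, c', U', U'', h1, h2, h3⟩ := hd
    exact ⟨a, D, c', U', U'', h1, h2.trans hc, h3⟩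

theorem cnt_eq_zero {H : SimpleGraph V} {π : V → ℕ} {U : Finset V} {k : ℕ} {w : V}
    (h : ∀ u ∈ U, ¬ H.Adj u w) : cnt H π U k w = 0 := by
  classical
  unfold cnt
  rw [card_eq_zero, filter_eq_empty_iff]
  intro u hu h'
  exact h u hu h'.2

/-- Embedding an independent set. -/
theorem flex_indep [Nonempty W] (H : SimpleGraph V) (G : SimpleGraph W) (π : V → ℕ)
    (hπ : Function.Injective π) (U : Finset V) (S : Finset W) (n : ℕ) (hn : U.card ≤ n)
    (hn1 : 1 ≤ n)
    (hind : ∀ u ∈ U, ∀ v ∈ U, ¬ H.Adj u v) (hS : (8 * n : ℝ) ≤ S.card) (K : ℕ) (hK : 1 ≤ K) :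
    Flex H G U S (1 / 2) K := by
  classical
  refine ⟨fun _ => S, fun _ _ => Subset.rfl, ?_, ?_⟩
  · calc (U.image (fun _ => S)).card ≤ ({S} : Finset (Finset W)).card := by
          apply card_le_card
          intro Q hQ
          obtain ⟨v, -, rfl⟩ := mem_image.1 hQ
          exact mem_singleton_self _
      _ ≤ K := by rw [card_singleton]; exact hK
  · intro L hL
    have hnR : (1 : ℝ) ≤ n := by exact_mod_cast hn1
    obtain ⟨φ, h1, h2, -⟩ := greedy (⊥ : SimpleGraph V) (⊤ : SimpleGraph W) π hπ U S n 1 0 hn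
      le_rfl (by
        intro v _
        have : nb (⊥ : SimpleGraph V) U v = ∅ := by
          rw [eq_empty_iff_forall_notMem]
          intro x hx
          exact (mem_nb.1 hx).2
        rw [this, card_empty]; exact Nat.zero_le _) (1/2)
      (by norm_num) (by norm_num) (by
        intro v _
        rw [cnt_eq_zero (fun u _ h => h)]) (by simpa using hS) (by
          rw [pow_zero, mul_one]; push_cast; linarith) (by
        intro X Y _ _ hXY _ _
        have : ed (⊤ : SimpleGraph W) X Y = X.card * Y.card := by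
          unfold ed
          rw [sum_congr rfl (g := fun _ => Y.card), sum_const, smul_eq_mul]
          intro x hx
          congr 1
          ext y
          rw [mem_nb]
          constructor
          · exact fun h => h.1
          · intro hy
            refine ⟨hy, ?_⟩
            rw [SimpleGraph.top_adj]
            rintro rfl
            exact disjoint_left.1 hXY hx hy
        rw [this]
        push_cast
        linarith) L (fun v hv => ⟨(hL v hv).1, by linarith [(hL v hv).2]⟩)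
    exact ⟨φ, h1, h2, fun u hu v hv ha => absurd ha (hind u hu v hv)⟩

/-- Embedding into a set without sparse pairs. -/
theorem flex_greedy [Nonempty W] (H : SimpleGraph V) (G : SimpleGraph W) (π : V → ℕ)
    (hπ : Function.Injective π)
    (U : Finset V) (S : Finset W) (n D m : ℕ) (hn : U.card ≤ n) (hD1 : 1 ≤ D)
    (hD : ∀ v ∈ U, (nb H U v).card ≤ D) (ρ : ℝ) (hρ0 : 0 < ρ)
    (hρ1 : ρ ≤ 1)
    (hm : ∀ v ∈ U, cnt H π U (π v) v ≤ m)
    (hS : (8 * n : ℝ) ≤ S.card * ρ ^ m) (hSD : (8 * D : ℝ) ≤ S.card * ρ ^ m)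
    (hno : ∀ X Y : Finset W, X ⊆ S → Y ⊆ S → Disjoint X Y →
       ρ ^ m * S.card ≤ 8 * D * X.card → ρ ^ m * S.card ≤ 8 * D * Y.card →
       2 * ρ * X.card * Y.card ≤ ed G X Y) (K : ℕ) (hK : 1 ≤ K) :
    Flex H G U S (1 / 2) K := by
  classical
  refine ⟨fun _ => S, fun _ _ => Subset.rfl, ?_, ?_⟩
  · calc (U.image (fun _ => S)).card ≤ ({S} : Finset (Finset W)).card := by
          apply card_le_card
          intro Q hQ
          obtain ⟨v, -, rfl⟩ := mem_image.1 hQ
          exact mem_singleton_self _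
      _ ≤ K := by rw [card_singleton]; exact hK
  · intro L hL
    exact greedy H G π hπ U S n D m hn hD1 hD ρ hρ0 hρ1 hm hS hSD hno L
      (fun v hv => ⟨(hL v hv).1, by linarith [(hL v hv).2]⟩)

/-- The parameters of the zigzag: cross degree `T`, total height `M`, density `ρ`. -/
structure Par (T M : ℕ) (ρ : ℝ) : Prop where
  M1 : 1 ≤ M
  ρ0 : 0 < ρ
  ρ1 : ρ ≤ 1
  hT : T * (8 * 2 ^ M * ρ) ≤ 1 / (2 * (M : ℝ))

/-- The fraction of the pools which may be missing at height `h`. -/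
noncomputable def th (M h : ℕ) : ℝ := 1 / 2 - h / (2 * (M : ℝ))

theorem th_le (M h : ℕ) : th M h ≤ 1 / 2 := by
  unfold th
  have : (0 : ℝ) ≤ h / (2 * (M : ℝ)) := by positivity
  linarith

theorem th_succ (M h : ℕ) : th M (h + 1) = th M h - 1 / (2 * (M : ℝ)) := by
  unfold th
  push_cast
  rw [add_div]
  ring

/-- The step of the zigzag: `G` is the colour whose target is cheaper. -/
theorem zig_step [Nonempty W] {n T M : ℕ} {ρ : ℝ} (hp : Par T M ρ) (H : SimpleGraph V)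
    (π : V → ℕ) (hπ : Function.Injective π)
    (G : SimpleGraph W) (U V₀ V' V'' : Finset V) (hU : U.card ≤ n)
    (hV : V₀ = V' ∪ V'')
    (hdisj : Disjoint V' V'') (hT : ∀ y ∈ V'', (nb H V' y).card ≤ T) (m D h h' : ℕ) (hh : h' ≤ M)
    (hD1 : 1 ≤ D) (hD : ∀ v ∈ U, (nb H U v).card ≤ D)
    (hm : ∀ v ∈ U, cnt H π U (π v) v ≤ m)
    (S : Finset W) (hS : (8 * n : ℝ) ≤ S.card * ρ ^ m) (hSD : (8 * D : ℝ) ≤ S.card * ρ ^ m)
    (hrec' : ∀ S' : Finset W, (S.card : ℝ) * ρ ^ m ≤ 16 * D * S'.card →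
      Flex H G U S' (th M h) (2 ^ h) ∨ Flex H Gᶜ V' S' (th M h') (2 ^ h'))
    (hrec'' : ∀ S' : Finset W, (S.card : ℝ) * ρ ^ m ≤ 16 * D * S'.card →
      Flex H G U S' (th M h) (2 ^ h) ∨ Flex H Gᶜ V'' S' (th M h') (2 ^ h')) :
    Flex H G U S (th M h) (2 ^ h) ∨ Flex H Gᶜ V₀ S (th M (h' + 1)) (2 ^ (h' + 1)) := by
  classical
  obtain ⟨M1, ρ0, ρ1, hTρ⟩ := hp
  by_cases hno : ∀ X Y : Finset W, X ⊆ S → Y ⊆ S → Disjoint X Y →
       ρ ^ m * S.card ≤ 8 * D * X.card → ρ ^ m * S.card ≤ 8 * D * Y.card →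
       2 * ρ * X.card * Y.card ≤ ed G X Y
  · left
    exact (flex_greedy H G π hπ U S n D m hU hD1 hD ρ ρ0 ρ1 hm hS hSD hno 1 le_rfl).mono
      Subset.rfl (th_le M h) Nat.one_le_two_pow
  push Not at hno
  obtain ⟨X, Y, hX, hY, hXY, hXc, hYc, hsp⟩ := hno
  have hDR : (1 : ℝ) ≤ D := by exact_mod_cast hD1
  have hXpos : (0 : ℝ) < X.card := by
    by_contra hcon
    have : (X.card : ℝ) = 0 := le_antisymm (not_lt.1 hcon) (Nat.cast_nonneg _)
    rw [this] at hXc
    nlinarith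
  -- clean `Y`
  let B₀ := Y.filter (fun b => ((nb G X b).card : ℝ) ≤ 4 * ρ * X.card)
  have hB₀Y : B₀ ⊆ Y := filter_subset _ _
  have hB₀c : (Y.card : ℝ) ≤ 2 * B₀.card := by
    have e0 : B₀.card + (Y.filter (fun b => ¬ ((nb G X b).card : ℝ) ≤ 4 * ρ * X.card)).card
        = Y.card := card_filter_add_card_filter_not _
    have e0R : (B₀.card : ℝ) +
        ((Y.filter (fun b => ¬ ((nb G X b).card : ℝ) ≤ 4 * ρ * X.card)).card : ℝ) = Y.card := by
      exact_mod_cast e0
    have e1 : ((Y.filter (fun b => ¬ ((nb G X b).card : ℝ) ≤ 4 * ρ * X.card)).card : ℝ)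
        * (4 * ρ * X.card) ≤ ed G X Y := by
      rw [ed_comm]
      unfold ed
      push_cast
      calc _ = ∑ _b ∈ Y.filter (fun b => ¬ ((nb G X b).card : ℝ) ≤ 4 * ρ * X.card),
            4 * ρ * (X.card : ℝ) := by rw [sum_const, nsmul_eq_mul]
        _ ≤ ∑ b ∈ Y.filter (fun b => ¬ ((nb G X b).card : ℝ) ≤ 4 * ρ * X.card),
            ((nb G X b).card : ℝ) :=
              sum_le_sum fun b hb => (not_le.1 (mem_filter.1 hb).2).le
        _ ≤ ∑ b ∈ Y, ((nb G X b).card : ℝ) :=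
              sum_le_sum_of_subset_of_nonneg (filter_subset _ _) fun _ _ _ => Nat.cast_nonneg _
    have e2 : (2 * ρ * X.card) *
        (2 * ((Y.filter (fun b => ¬ ((nb G X b).card : ℝ) ≤ 4 * ρ * X.card)).card : ℝ))
        ≤ (2 * ρ * X.card) * Y.card := by
      nlinarith
    have e3 := le_of_mul_le_mul_left e2 (by positivity)
    linarith
  rcases hrec'' B₀ (by
    have : (8 : ℝ) * D * Y.card ≤ 8 * D * (2 * B₀.card) :=
      mul_le_mul_of_nonneg_left hB₀c (by positivity)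
    linarith [mul_comm (S.card : ℝ) (ρ ^ m)]) with hl | hr
  · left
    exact hl.mono (hB₀Y.trans hY) le_rfl le_rfl
  obtain ⟨P, hP1, hP2, hP3⟩ := hr
  obtain ⟨A₀, hA₀X, hA₀c, hA₀⟩ := clean G X B₀ (4 * ρ) (by positivity) (2 ^ h') (by positivity)
    (fun b hb => (mem_filter.1 hb).2) (V''.image P) (by
      intro Q hQ
      obtain ⟨v, hv, rfl⟩ := mem_image.1 hQ
      exact hP1 v hv) hP2
  rcases hrec' A₀ (by
    have : (8 : ℝ) * D * X.card ≤ 8 * D * (2 * A₀.card) :=
      mul_le_mul_of_nonneg_left hA₀c (by positivity)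
    linarith [mul_comm (S.card : ℝ) (ρ ^ m)]) with hl | hr
  · left
    exact hl.mono (hA₀X.trans hX) le_rfl le_rfl
  right
  rw [th_succ, pow_succ, mul_two]
  have hMpos : (0 : ℝ) < M := by exact_mod_cast M1
  have hζ : (T : ℝ) * (2 * ((2 ^ h' : ℕ) : ℝ) * (4 * ρ)) ≤ 1 / (2 * (M : ℝ)) := by
    refine le_trans ?_ hTρ
    apply mul_le_mul_of_nonneg_left _ (Nat.cast_nonneg _)
    have : ((2 ^ h' : ℕ) : ℝ) ≤ 2 ^ M := by
      push_cast
      exact pow_le_pow_right₀ (by norm_num) hh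
    nlinarith
  refine join H Gᶜ V₀ V' V'' hV hdisj T A₀ B₀ S (hA₀X.trans hX) (hB₀Y.trans hY)
    (disjoint_of_subset_left hA₀X (disjoint_of_subset_right hB₀Y hXY)) (th M h')
    (1 / (2 * (M : ℝ))) (2 * ((2 ^ h' : ℕ) : ℝ) * (4 * ρ)) (by positivity) hζ (by positivity)
    (2 ^ h') (2 ^ h') hT P hP1 hP2 hP3 ?_ hr
  rw [compl_compl]
  exact hA₀

theorem pow_eq_exp {ρ : ℝ} (hρ : 0 < ρ) (m : ℕ) : ρ ^ m = Real.exp (-(m * (-Real.log ρ))) := by
  rw [mul_neg, neg_neg, mul_comm, Real.exp_mul, Real.exp_log hρ, Real.rpow_natCast]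

/-- The size condition at a node. -/
theorem size_node {ρ c L s : ℝ} (hρ : 0 < ρ) {m D : ℕ} (hD : 1 ≤ D) (hs : 0 < s)
    (hc : Real.log (16 * D) + m * (-Real.log ρ) + c ≤ L) (hL : L ≤ Real.log s) :
    16 * D * Real.exp c ≤ s * ρ ^ m := by
  have hDR : (1 : ℝ) ≤ D := by exact_mod_cast hD
  have h1 : Real.log (16 * D) + c ≤ Real.log s - m * (-Real.log ρ) := by linarith
  have h2 := Real.exp_le_exp.2 h1
  rw [Real.exp_add, Real.exp_log (by linarith), sub_eq_add_neg, Real.exp_add,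
    Real.exp_log hs, ← pow_eq_exp hρ] at h2
  exact h2

theorem size_rec {ρ c L s s' : ℝ} (hρ : 0 < ρ) {m D : ℕ} (hD : 1 ≤ D) (hs : 0 < s)
    (hc : Real.log (16 * D) + m * (-Real.log ρ) + c ≤ L) (hL : L ≤ Real.log s)
    (hs' : s * ρ ^ m ≤ 16 * D * s') : c ≤ Real.log s' ∧ 0 < s' := by
  have hDR : (1 : ℝ) ≤ D := by exact_mod_cast hD
  have h1 := (size_node hρ hD hs hc hL).trans hs'
  have h2 : Real.exp c ≤ s' := le_of_mul_le_mul_left h1 (by linarith)
  have h3 : 0 < s' := lt_of_lt_of_le (Real.exp_pos c) h2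
  exact ⟨(Real.le_log_iff_exp_le h3).2 h2, h3⟩

/-- The zigzag induction. -/
theorem zig [Nonempty W] {n T M : ℕ} {ρ : ℝ} (hp : Par T M ρ) (hn1 : 1 ≤ n)
    (H : SimpleGraph V) (π : V → ℕ) (hπ : Function.Injective π) :
    ∀ (s h k : ℕ) (p q : ℝ), h + k = s → h ≤ M → k ≤ M → ∀ (G : SimpleGraph W) (U V₀ : Finset V),
      U.card ≤ n → V₀.card ≤ n → Dec H π T (-Real.log ρ) h p U →
      Dec H π T (-Real.log ρ) k q V₀ → ∀ S : Finset W, 0 < (S.card : ℝ) →
      Real.log (8 * n) + p + q ≤ Real.log S.card →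
      Flex H G U S (th M h) (2 ^ h) ∨ Flex H Gᶜ V₀ S (th M k) (2 ^ k) := by
  intro s
  have ρ0 := hp.ρ0
  have ρ1 := hp.ρ1
  have hnR : (1 : ℝ) ≤ n := by exact_mod_cast hn1
  have hr : 0 ≤ -Real.log ρ := by
    have := Real.log_nonpos ρ0.le ρ1
    linarith
  have h8 : 0 ≤ Real.log (8 * n) := Real.log_nonneg (by linarith)
  have big : ∀ (c : ℝ) (S : Finset W), 0 ≤ c → 0 < (S.card : ℝ) →
      Real.log (8 * n) + c ≤ Real.log S.card → (8 * n : ℝ) ≤ S.card := by
    intro c S hc hS h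
    exact (Real.log_le_log_iff (by linarith) hS).1 (by linarith)
  induction s with
  | zero =>
    intro h k p q hs _ _ G U V₀ hU _ hDU hDV S hS0 hS
    obtain rfl : h = 0 := by omega
    obtain rfl : k = 0 := by omega
    left
    have h1 := hDU.nonneg hr
    have h2 := hDV.nonneg hr
    exact (flex_indep H G π hπ U S n hU hn1 hDU.2 (big (p + q) S (by linarith) hS0
      (by linarith)) 1 le_rfl).mono Subset.rfl (th_le _ _) Nat.one_le_two_pow
  | succ s ih =>
    intro h k p q hs hhM hkM G U V₀ hU hV₀ hDU hDV S hS0 hS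
    have hp0 := hDU.nonneg hr
    have hq0 := hDV.nonneg hr
    have hS1 : (8 * n : ℝ) ≤ S.card := big (p + q) S (by linarith) hS0 (by linarith)
    rcases Nat.eq_zero_or_pos h with rfl | hh
    · left
      exact (flex_indep H G π hπ U S n hU hn1 hDU.2 hS1 1 le_rfl).mono Subset.rfl (th_le _ _)
        Nat.one_le_two_pow
    rcases Nat.eq_zero_or_pos k with rfl | hk
    · right
      exact (flex_indep H Gᶜ π hπ V₀ S n hV₀ hn1 hDV.2 hS1 1 le_rfl).mono Subset.rfl (th_le _ _)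
        Nat.one_le_two_pow
    obtain ⟨h, rfl⟩ : ∃ h', h = h' + 1 := ⟨h - 1, by omega⟩
    obtain ⟨k, rfl⟩ : ∃ k', k = k' + 1 := ⟨k - 1, by omega⟩
    have hDU0 := hDU
    have hDV0 := hDV
    obtain ⟨a, D, p', U', U'', hD1, hap, hU1, hU2, hU3, hU7, hU4, hU5, hU6⟩ := hDU
    obtain ⟨b, E, q', V', V'', hE1, hbq, hV1, hV2, hV3, hV7, hV4, hV5, hV6⟩ := hDV
    have hp'0 := hU5.nonneg hr
    have hq'0 := hV5.nonneg hr
    have hU'n : U'.card ≤ n := (card_le_card (by rw [hU1]; exact subset_union_left)).trans hU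
    have hU''n : U''.card ≤ n := (card_le_card (by rw [hU1]; exact subset_union_right)).trans hU
    have hV'n : V'.card ≤ n := (card_le_card (by rw [hV1]; exact subset_union_left)).trans hV₀
    have hV''n : V''.card ≤ n := (card_le_card (by rw [hV1]; exact subset_union_right)).trans hV₀
    have hnode : ∀ (m F : ℕ) (c : ℝ), 1 ≤ F → 0 ≤ c →
        Real.log (16 * F) + m * (-Real.log ρ) + c ≤ Real.log S.card - Real.log (8 * n) →
        (8 * n : ℝ) ≤ S.card * ρ ^ m ∧ (8 * F : ℝ) ≤ S.card * ρ ^ m := by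
      intro m F c hF hc hle
      have hFR : (1 : ℝ) ≤ F := by exact_mod_cast hF
      have e := size_node (c := Real.log (8 * n) + c) (L := Real.log S.card) ρ0 hF hS0
        (by linarith) le_rfl
      rw [Real.exp_add, Real.exp_log (by linarith)] at e
      have e2 : (1 : ℝ) ≤ Real.exp c := Real.one_le_exp hc
      have e3 : (8 * n : ℝ) ≤ 8 * n * Real.exp c := by nlinarith
      have e4 : 16 * (F : ℝ) * (8 * n) ≤ 16 * F * (8 * n * Real.exp c) :=
        mul_le_mul_of_nonneg_left e3 (by positivity)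
      constructor
      · nlinarith
      · nlinarith
    have hκD : 0 ≤ Real.log (16 * D) + a * (-Real.log ρ) :=
      add_nonneg (log16_nonneg hD1) (mul_nonneg (Nat.cast_nonneg a) hr)
    have hκE : 0 ≤ Real.log (16 * E) + b * (-Real.log ρ) :=
      add_nonneg (log16_nonneg hE1) (mul_nonneg (Nat.cast_nonneg b) hr)
    rcases le_total (Real.log (16 * D) + a * (-Real.log ρ)) (Real.log (16 * E) + b * (-Real.log ρ))
      with hab | hab
    · -- `G` has the cheaper target: split `V₀`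
      have hn := hnode a D (p' + q') hD1 (by linarith) (by linarith)
      refine zig_step hp H π hπ G U V₀ V' V'' hU hV1 hV2 hV4 a D (h + 1) k (by omega) hD1 hU7
        hU3 S hn.1 hn.2 ?_ ?_
      · intro S' hS'
        obtain ⟨e1, e2⟩ := size_rec (c := Real.log (8 * n) + p + q') (L := Real.log S.card) ρ0 hD1
          hS0 (by linarith) le_rfl hS'
        exact ih (h + 1) k p q' (by omega) hhM (by omega) G U V' hU hV'n hDU0 hV5 S' e2 e1
      · intro S' hS'
        obtain ⟨e1, e2⟩ := size_rec (c := Real.log (8 * n) + p + q') (L := Real.log S.card) ρ0 hD1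
          hS0 (by linarith) le_rfl hS'
        exact ih (h + 1) k p q' (by omega) hhM (by omega) G U V'' hU hV''n hDU0 hV6 S' e2 e1
    · -- `Gᶜ` has the cheaper target: split `U`
      have hn := hnode b E (p' + q') hE1 (by linarith) (by linarith)
      have key := zig_step hp H π hπ Gᶜ V₀ U U' U'' hV₀ hU1 hU2 hU4 b E (k + 1) h (by omega)
        hE1 hV7 hV3 S hn.1 hn.2 ?_ ?_
      · rw [compl_compl] at key
        exact key.symm
      · intro S' hS'
        rw [compl_compl]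
        obtain ⟨e1, e2⟩ := size_rec (c := Real.log (8 * n) + p' + q) (L := Real.log S.card) ρ0 hE1
          hS0 (by linarith) le_rfl hS'
        exact (ih h (k + 1) p' q (by omega) (by omega) hkM G U' V₀ hU'n hV₀ hU5 hDV0 S' e2
          e1).symm
      · intro S' hS'
        rw [compl_compl]
        obtain ⟨e1, e2⟩ := size_rec (c := Real.log (8 * n) + p' + q) (L := Real.log S.card) ρ0 hE1
          hS0 (by linarith) le_rfl hS'
        exact (ih h (k + 1) p' q (by omega) (by omega) hkM G U'' V₀ hU''n hV₀ hU6 hDV0 S' e2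
          e1).symm

end Pool.Agent.Work.MP_a883af_co.Zig
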